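import Mathlib

/-! Terms in the signature {+, ·}, equational logic, the semirings B2 and B0. -/

namespace Pool.Agent.R685.Ai

/-- Terms in the signature `{+, ·}` over the variables `0, 1, 2, …`. -/
inductive Term : Type
  | var : ℕ → Term
  | add : Term → Term → Term
  | mul : Term → Term → Term

/-- The value of a term. -/
def Term.eval {A : Type} [Add A] [Mul A] (f : ℕ → A) : Term → A
  | .var n => f n
  | .add s t => s.eval f + t.eval f
  | .mul s t => s.eval f * t.eval f

/-- Substitution of terms for variables. -/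
def Term.subst (σ : ℕ → Term) : Term → Term
  | .var n => σ n
  | .add s t => .add (s.subst σ) (t.subst σ)
  | .mul s t => .mul (s.subst σ) (t.subst σ)

/-- The identity `s ≈ t` holds in `A`. -/
def Holds (A : Type) [Add A] [Mul A] (s t : Term) : Prop :=
  ∀ f : ℕ → A, s.eval f = t.eval f

/-- Equational logic: `s ≈ t` follows from the identities in `E`. -/
inductive Derives (E : Set (Term × Term)) : Term → Term → Prop
  | ax (s t : Term) (σ : ℕ → Term) : (s, t) ∈ E → Derives E (s.subst σ) (t.subst σ)
  | refl (t : Term) : Derives E t t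
  | symm (s t : Term) : Derives E s t → Derives E t s
  | trans (s t u : Term) : Derives E s t → Derives E t u → Derives E s u
  | add (s s' t t' : Term) : Derives E s s' → Derives E t t' →
      Derives E (.add s t) (.add s' t')
  | mul (s s' t t' : Term) : Derives E s s' → Derives E t t' →
      Derives E (.mul s t) (.mul s' t')

/-- `A` is finitely based: some finite set of identities of `A` implies all of them. -/
def FinitelyBased (A : Type) [Add A] [Mul A] : Prop :=
  ∃ E : Set (Term × Term), E.Finite ∧ (∀ p ∈ E, Holds A p.1 p.2) ∧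
    ∀ s t, Holds A s t → Derives E s t

/-- The five elements of the Brandt semigroup. -/
inductive B2 : Type
  | a | b | ab | ba | zero
  deriving DecidableEq, Fintype

/-- Multiplication of the matrix units `a = e₁₂`, `b = e₂₁`, `ab = e₁₁`, `ba = e₂₂`. -/
instance : Mul B2 := ⟨fun x y => match x, y with
  | .a, .b => .ab
  | .a, .ba => .a
  | .b, .a => .ba
  | .b, .ab => .b
  | .ab, .a => .a
  | .ab, .ab => .ab
  | .ba, .b => .b
  | .ba, .ba => .ba
  | _, _ => .zero⟩

/-- The flat addition. -/
instance : Add B2 := ⟨fun x y => if x = y then x else .zero⟩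

/-- `B0 = {a, ab, ba, 0}`. -/
def B0 : Type := {x : B2 // x ≠ B2.b}

theorem mul_ne_b : ∀ x y : B2, x ≠ B2.b → y ≠ B2.b → x * y ≠ B2.b := by decide
theorem add_ne_b : ∀ x y : B2, x ≠ B2.b → y ≠ B2.b → x + y ≠ B2.b := by decide

instance : Mul B0 := ⟨fun x y => ⟨x.1 * y.1, mul_ne_b _ _ x.2 y.2⟩⟩
instance : Add B0 := ⟨fun x y => ⟨x.1 + y.1, add_ne_b _ _ x.2 y.2⟩⟩

end Pool.Agent.R685.Ai
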