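import Mathlib

/-! Languages closed under the rectangle and the crossing rule: colourings of the states. -/

namespace Pool.Agent.R685.LangB

open Classical

/-- Two words have the same right parts. -/
def Eqv (L : List ℕ → Prop) (p p' : List ℕ) : Prop := ∀ q, L (p ++ q) ↔ L (p' ++ q)

/-- Some continuation is in the language. -/
def Good (L : List ℕ → Prop) (p : List ℕ) : Prop := ∃ q, L (p ++ q)

structure Rect (L : List ℕ → Prop) : Prop where
  rect : ∀ x y z v, L (x ++ y) → L (z ++ y) → L (z ++ v) → L (x ++ v)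
  cross : ∀ x b y z v, L (x ++ b :: y) → L (z ++ b :: v) → L (x ++ b :: v)

variable {L : List ℕ → Prop}

theorem Eqv.refl (p : List ℕ) : Eqv L p p := fun _ => Iff.rfl
theorem Eqv.symm {p p' : List ℕ} (h : Eqv L p p') : Eqv L p' p := fun q => (h q).symm
theorem Eqv.trans {p q r : List ℕ} (h : Eqv L p q) (h' : Eqv L q r) : Eqv L p r :=
  fun s => (h s).trans (h' s)
theorem Eqv.app {p p' : List ℕ} (h : Eqv L p p') (l : List ℕ) : Eqv L (p ++ l) (p' ++ l) := by
  intro q
  simpa [List.append_assoc] using h (l ++ q)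

theorem Good.of_eqv {p p' : List ℕ} (h : Eqv L p p') (g : Good L p) : Good L p' := by
  obtain ⟨q, hq⟩ := g
  exact ⟨q, (h q).1 hq⟩

theorem Good.left {p l : List ℕ} (g : Good L (p ++ l)) : Good L p := by
  obtain ⟨q, hq⟩ := g
  exact ⟨l ++ q, by simpa [List.append_assoc] using hq⟩

theorem eqv_common (h : Rect L) {p p' q : List ℕ} (h1 : L (p ++ q)) (h2 : L (p' ++ q)) :
    Eqv L p p' := by
  intro r
  exact ⟨fun hr => h.rect p' q p r h2 h1 hr, fun hr => h.rect p q p' r h1 h2 hr⟩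

theorem eqv_letter (h : Rect L) {p p' q q' : List ℕ} {b : ℕ} (h1 : L (p ++ b :: q))
    (h2 : L (p' ++ b :: q')) : Eqv L p p' :=
  eqv_common h (q := b :: q') (h.cross p b q p' q' h1 h2) h2

theorem eqv_letter_out (h : Rect L) {p p' q q' : List ℕ} {b : ℕ} (h1 : L (p ++ b :: q))
    (h2 : L (p' ++ b :: q')) : Eqv L (p ++ [b]) (p' ++ [b]) :=
  (eqv_letter h h1 h2).app [b]

/-- A colouring of the states of the language. -/
def IsCol (L : List ℕ → Prop) (χ : List ℕ → Bool) : Prop := ∀ p p', Eqv L p p' → χ p = χ p'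

/-- the letters of the language get their two end states -/
noncomputable def lab (L : List ℕ → Prop) (χ : List ℕ → Bool) (b : ℕ) : Option (Bool × Bool) :=
  if h : ∃ p q, L (p ++ b :: q) then some (χ h.choose, χ (h.choose ++ [b])) else none

theorem lab_eq (h : Rect L) {χ : List ℕ → Bool} (hχ : IsCol L χ) {p q : List ℕ} {b : ℕ}
    (hp : L (p ++ b :: q)) : lab L χ b = some (χ p, χ (p ++ [b])) := by
  have hex : ∃ p q, L (p ++ b :: q) := ⟨p, q, hp⟩
  unfold lab
  rw [dif_pos hex]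
  obtain ⟨q', hq'⟩ := hex.choose_spec
  have e1 := hχ _ _ (eqv_letter h hq' hp)
  have e2 := hχ _ _ (eqv_letter_out h hq' hp)
  rw [e1, e2]

theorem lab_some {χ : List ℕ → Bool} {b : ℕ} {i j : Bool} (h : lab L χ b = some (i, j)) :
    ∃ p q, L (p ++ b :: q) ∧ χ p = i ∧ χ (p ++ [b]) = j := by
  unfold lab at h
  split_ifs at h with hex
  · obtain ⟨q', hq'⟩ := hex.choose_spec
    simp only [Option.some.injEq, Prod.mk.injEq] at h
    exact ⟨_, q', hq', h.1, h.2⟩

/-- Being on a path: `r` is reached from `k`. -/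
def Reach (L : List ℕ → Prop) (k r : List ℕ) : Prop := ∃ l, Eqv L (k ++ l) r

theorem Reach.refl (k : List ℕ) : Reach L k k := ⟨[], by simpa using Eqv.refl k⟩

theorem Reach.step {k r : List ℕ} (h : Reach L k r) (b : ℕ) : Reach L k (r ++ [b]) := by
  obtain ⟨l, hl⟩ := h
  exact ⟨l ++ [b], by simpa [List.append_assoc] using hl.app [b]⟩

theorem Reach.of_eqv {k r r' : List ℕ} (h : Reach L k r) (e : Eqv L r r') : Reach L k r' := by
  obtain ⟨l, hl⟩ := h
  exact ⟨l, hl.trans e⟩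

/-- The loop rule. -/
def Loop (L : List ℕ → Prop) : Prop := ∀ x c y d v z, y ≠ [] → v ≠ [] → z ≠ [] →
  L (x ++ (c :: y ++ d :: v ++ c :: z)) → L (x ++ d :: (c :: y ++ d :: v ++ c :: z))

theorem pump {p κ : List ℕ} (hκ : Eqv L (p ++ κ) p) {q : List ℕ} (hq : L (p ++ q)) :
    L (p ++ (κ ++ q)) := by
  have := (hκ q).2 hq
  simpa [List.append_assoc] using this

theorem loop_letter (h : Rect L) (hl : Loop L) {p κ : List ℕ} (hκ : Eqv L (p ++ κ) p)
    (g : Good L p) {d : ℕ} (hd : d ∈ κ) : Eqv L (p ++ [d]) p := by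
  obtain ⟨q, hq⟩ := g
  obtain ⟨κ1, κ2, hk⟩ := List.append_of_mem hd
  have hne : κ ≠ [] := List.ne_nil_of_mem hd
  obtain ⟨c, κ', hc⟩ := List.exists_cons_of_ne_nil hne
  have h6 := pump hκ (pump hκ (pump hκ (pump hκ (pump hκ (pump hκ hq)))))
  have hform : κ ++ (κ ++ (κ ++ (κ ++ (κ ++ (κ ++ q))))) =
      c :: (κ' ++ κ ++ κ1) ++ d :: (κ2 ++ κ) ++ c :: (κ' ++ κ ++ q) := by
    have e1 : κ ++ (κ ++ (κ ++ (κ ++ (κ ++ (κ ++ q))))) =
      (c :: κ') ++ (κ ++ ((κ1 ++ d :: κ2) ++ (κ ++ ((c :: κ') ++ (κ ++ q))))) := by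
      rw [← hc, ← hk]
    rw [e1]
    simp [List.append_assoc]
  rw [hform] at h6
  have h7 := hl p c (κ' ++ κ ++ κ1) d (κ2 ++ κ) (κ' ++ κ ++ q) (by simp [hne]) (by simp [hne])
    (by simp [hne]) h6
  have h8 : L ((p ++ [d]) ++ (c :: (κ' ++ κ ++ κ1) ++ d :: (κ2 ++ κ) ++ c :: (κ' ++ κ ++ q))) := by
    simpa [List.append_assoc] using h7
  exact eqv_common h h8 h6

theorem loop_word (h : Rect L) (hl : Loop L) {p κ : List ℕ} (hκ : Eqv L (p ++ κ) p)
    (g : Good L p) (m : List ℕ) (hm : ∀ d ∈ m, d ∈ κ) : Eqv L (p ++ m) p := by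
  induction m with
  | nil => simpa using Eqv.refl p
  | cons d m ih =>
    have h1 := loop_letter h hl hκ g (hm d (by simp))
    have h2 := ih (fun e he => hm e (by simp [he]))
    have h3 := h1.app m
    have h4 : Eqv L (p ++ d :: m) (p ++ m) := by simpa [List.append_assoc] using h3
    exact h4.trans h2

theorem eqv_of_reach (h : Rect L) (hl : Loop L) {p p' : List ℕ} (g : Good L p)
    (h1 : Reach L p p') (h2 : Reach L p' p) : Eqv L p p' := by
  obtain ⟨l, e1⟩ := h1
  obtain ⟨l', e2⟩ := h2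
  have hκ : Eqv L (p ++ (l ++ l')) p := by
    have := (e1.app l').trans e2
    simpa [List.append_assoc] using this
  have := loop_word h hl hκ g l (fun d hd => by simp [hd])
  exact this.symm.trans e1

end Pool.Agent.R685.LangB
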