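import Mathlib
import Pool.Agent.R685.AiDef
import Pool.Agent.R685.LangB

/-! Algebras satisfying the finite list of identities. -/

namespace Pool.Agent.R685.Ai

open LangB

/-- optional product -/
def om {A : Type} [Mul A] : Option A → Option A → Option A
  | none, y => y
  | x, none => x
  | some x, some y => some (x * y)

/-- the value of a word -/
def ev {A : Type} [Mul A] (f : ℕ → A) : List ℕ → Option A
  | [] => none
  | n :: l => om (some (f n)) (ev f l)

/-- terms of words -/
def wt : List ℕ → Term
  | [] => .var 0
  | [n] => .var n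
  | n :: m :: l => .mul (.var n) (wt (m :: l))

/-- sum of words -/
def st : List (List ℕ) → Term
  | [] => .var 0
  | [w] => wt w
  | w :: v :: l => .add (wt w) (st (v :: l))

/-- the identity saying that the word `w` lies below the sum of the words in `U` -/
def ineq (U : List (List ℕ)) (w : List ℕ) : Term × Term := (.add (st U) (wt w), st U)

def opt (b : Bool) (n : ℕ) : List ℕ := if b then [n] else []

/-- zigzag identities -/
def zid (x y z v : Bool) : Term × Term :=
  ineq [opt x 0 ++ opt y 1, opt z 2 ++ opt y 1, opt z 2 ++ opt v 3] (opt x 0 ++ opt v 3)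

/-- crossing identities -/
def cid (x y z v : Bool) : Term × Term :=
  ineq [opt x 0 ++ 4 :: opt y 1, opt z 2 ++ 4 :: opt v 3] (opt x 0 ++ 4 :: opt v 3)

/-- the identity for loops -/
def lid : Term × Term := (wt [3, 0, 1, 3, 2, 0, 4], wt [0, 1, 3, 2, 0, 4])

def axs : List (Term × Term) :=
  [(.add (.var 0) (.var 1), .add (.var 1) (.var 0)),
   (.add (.add (.var 0) (.var 1)) (.var 2), .add (.var 0) (.add (.var 1) (.var 2))),
   (.add (.var 0) (.var 0), .var 0),
   (.mul (.mul (.var 0) (.var 1)) (.var 2), .mul (.var 0) (.mul (.var 1) (.var 2))),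
   (.mul (.var 0) (.add (.var 1) (.var 2)), .add (.mul (.var 0) (.var 1)) (.mul (.var 0) (.var 2))),
   (.mul (.add (.var 1) (.var 2)) (.var 0), .add (.mul (.var 1) (.var 0)) (.mul (.var 2) (.var 0)))]

/-- the pattern of optional variables gives nonempty words -/
def okz (x y z v : Bool) : Bool := (x || y) && (z || y) && (z || v) && (x || v)

/-- The identities used for `B2`. -/
def E2 : Set (Term × Term) :=
  {p | p ∈ axs ∨ (∃ x y z v, okz x y z v = true ∧ p = zid x y z v) ∨
    (∃ x y z v, p = cid x y z v)}

/-- The identities used for `B0`. -/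
def E0 : Set (Term × Term) := E2 ∪ {lid}

theorem E2_finite : E2.Finite := by
  have h1 : {p : Term × Term | p ∈ axs}.Finite := List.finite_toSet axs
  have h2 : (Set.range (fun q : Bool × Bool × Bool × Bool => zid q.1 q.2.1 q.2.2.1 q.2.2.2)).Finite :=
    Set.finite_range _
  have h3 : (Set.range (fun q : Bool × Bool × Bool × Bool => cid q.1 q.2.1 q.2.2.1 q.2.2.2)).Finite :=
    Set.finite_range _
  refine ((h1.union h2).union h3).subset ?_
  rintro p (h | ⟨x, y, z, v, _, h⟩ | ⟨x, y, z, v, h⟩)
  · exact Or.inl (Or.inl h)
  · exact Or.inl (Or.inr ⟨(x, y, z, v), h.symm⟩)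
  · exact Or.inr ⟨(x, y, z, v), h.symm⟩

theorem E0_finite : E0.Finite := E2_finite.union (Set.finite_singleton _)

section alg

variable {A : Type} [Add A] [Mul A]

structure Ai (A : Type) [Add A] [Mul A] : Prop where
  comm : ∀ x y : A, x + y = y + x
  assoc : ∀ x y z : A, x + y + z = x + (y + z)
  idem : ∀ x : A, x + x = x
  massoc : ∀ x y z : A, x * y * z = x * (y * z)
  ldist : ∀ x y z : A, x * (y + z) = x * y + x * z
  rdist : ∀ x y z : A, (y + z) * x = y * x + z * x

theorem ai_of (h : ∀ p ∈ axs, Holds A p.1 p.2) : Ai A := by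
  have key : ∀ (s t : Term), (s, t) ∈ axs → ∀ f : ℕ → A, s.eval f = t.eval f :=
    fun s t hm f => h (s, t) hm f
  refine ⟨?_, ?_, ?_, ?_, ?_, ?_⟩
  · intro x y
    exact key _ _ (by simp only [axs]; exact List.mem_cons_self) (fun n => if n = 0 then x else y)
  · intro x y z
    exact key (.add (.add (.var 0) (.var 1)) (.var 2)) (.add (.var 0) (.add (.var 1) (.var 2)))
      (by simp [axs]) (fun n => if n = 0 then x else if n = 1 then y else z)
  · intro x
    exact key (.add (.var 0) (.var 0)) (.var 0) (by simp [axs]) (fun _ => x)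
  · intro x y z
    exact key (.mul (.mul (.var 0) (.var 1)) (.var 2)) (.mul (.var 0) (.mul (.var 1) (.var 2)))
      (by simp [axs]) (fun n => if n = 0 then x else if n = 1 then y else z)
  · intro x y z
    exact key (.mul (.var 0) (.add (.var 1) (.var 2)))
      (.add (.mul (.var 0) (.var 1)) (.mul (.var 0) (.var 2)))
      (by simp [axs]) (fun n => if n = 0 then x else if n = 1 then y else z)
  · intro x y z
    exact key (.mul (.add (.var 1) (.var 2)) (.var 0))
      (.add (.mul (.var 1) (.var 0)) (.mul (.var 2) (.var 0)))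
      (by simp [axs]) (fun n => if n = 0 then x else if n = 1 then y else z)

theorem om_assoc (hA : Ai A) (x y z : Option A) : om (om x y) z = om x (om y z) := by
  cases x <;> cases y <;> cases z <;> simp [om, hA.massoc]

theorem ev_append (hA : Ai A) (f : ℕ → A) (u v : List ℕ) : ev f (u ++ v) = om (ev f u) (ev f v) := by
  induction u with
  | nil => simp [ev, om]
  | cons n u ih => simp only [List.cons_append, ev, ih, om_assoc hA]

theorem ev_ne_none (f : ℕ → A) {u : List ℕ} (hu : u ≠ []) : ∃ x, ev f u = some x := by
  cases u with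
  | nil => exact absurd rfl hu
  | cons n u =>
    unfold ev
    cases ev f u with
    | none => exact ⟨f n, rfl⟩
    | some y => exact ⟨f n * y, rfl⟩

theorem wt_eval (f : ℕ → A) (n : ℕ) (l : List ℕ) :
    ev f (n :: l) = some ((wt (n :: l)).eval f) := by
  induction l generalizing n with
  | nil => simp [ev, om, wt, Term.eval]
  | cons m l ih =>
    rw [ev, ih m]
    simp [om, wt, Term.eval]

/-- the value of the optional element is below `T` -/
def Le (T : A) (W : Option A) : Prop := ∃ x, W = some x ∧ x + T = T

/-- words below `T` -/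
def P (f : ℕ → A) (T : A) (l : List ℕ) : Prop := Le T (ev f l)

theorem P_ne {f : ℕ → A} {T : A} {l : List ℕ} (h : P f T l) : l ≠ [] := by
  rintro rfl
  obtain ⟨x, hx, _⟩ := h
  simp [ev] at hx

theorem le_of (hA : Ai A) {s r T : A} (hs : s + T = T) (h : s + r = s) : r + T = T := by
  calc r + T = r + (s + T) := by rw [hs]
    _ = (s + r) + T := by rw [← hA.assoc, hA.comm r s]
    _ = T := by rw [h, hs]

theorem sum_le (hA : Ai A) {x y T : A} (hx : x + T = T) (hy : y + T = T) : x + y + T = T := by
  rw [hA.assoc, hy, hx]

theorem st_le (hA : Ai A) (f : ℕ → A) (T : A) (w : List ℕ) (U : List (List ℕ))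
    (h : ∀ u ∈ w :: U, (wt u).eval f + T = T) : (st (w :: U)).eval f + T = T := by
  induction U generalizing w with
  | nil => exact h w (by simp)
  | cons v U ih =>
    exact sum_le hA (h w (by simp)) (ih v (fun u hu => h u (by simp [hu])))

theorem wt_le {f : ℕ → A} {T : A} {u : List ℕ} (hu : u ≠ []) :
    (wt u).eval f + T = T ↔ P f T u := by
  cases u with
  | nil => exact absurd rfl hu
  | cons n l =>
    unfold P Le
    rw [wt_eval]
    simp

/-- applying an inequality -/
theorem apply_ineq (hA : Ai A) {w : List ℕ} {U : List (List ℕ)} {r : List ℕ}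
    (hI : Holds A (ineq (w :: U) r).1 (ineq (w :: U) r).2) (f : ℕ → A) (T : A)
    (hne : ∀ u ∈ w :: U, u ≠ []) (hr : r ≠ [])
    (h : ∀ u ∈ w :: U, P f T u) : P f T r := by
  rw [← wt_le hr]
  have h1 := st_le hA f T w U (fun u hu => (wt_le (hne u hu)).2 (h u hu))
  have h2 := hI f
  exact le_of hA h1 h2

/-- evaluating words in two/five optional elements -/
theorem zrule (hA : Ai A) (h : ∀ x y z v, okz x y z v = true → Holds A (zid x y z v).1 (zid x y z v).2)
    (T : A) (X Y Z V : Option A) (h1 : Le T (om X Y)) (h2 : Le T (om Z Y)) (h3 : Le T (om Z V))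
    (h4 : om X V ≠ none) : Le T (om X V) := by
  classical
  have hdef : ∀ (W : Option A) (d : A) , W.isSome = true → W = some (W.getD d) := by
    intro W d hW
    cases W with
    | none => simp at hW
    | some x => simp
  have key : ∀ (W : Option A) (n : ℕ) (f : ℕ → A), (∀ x, W = some x → f n = x) →
      ev f (opt W.isSome n) = W := by
    intro W n f hf
    cases W with
    | none => simp [opt, ev]
    | some x => simp [opt, ev, om, hf x rfl]
  obtain ⟨x0, hx0, _⟩ := h1
  let d : A := x0
  let f : ℕ → A := fun n => if n = 0 then X.getD d else if n = 1 then Y.getD d else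
    if n = 2 then Z.getD d else V.getD d
  have eX : ev f (opt X.isSome 0) = X := key X 0 f (by rintro x rfl; simp [f])
  have eY : ev f (opt Y.isSome 1) = Y := key Y 1 f (by rintro x rfl; simp [f])
  have eZ : ev f (opt Z.isSome 2) = Z := key Z 2 f (by rintro x rfl; simp [f])
  have eV : ev f (opt V.isSome 3) = V := key V 3 f (by rintro x rfl; simp [f])
  have ne_of : ∀ (W W' : Option A) (m n : ℕ), om W W' ≠ none →
      opt W.isSome m ++ opt W'.isSome n ≠ [] := by
    intro W W' m n h
    cases W <;> cases W' <;> simp_all [om, opt]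
  have nn : ∀ W : Option A, Le T W → W ≠ none := by
    rintro W ⟨x, hx, _⟩ h0
    rw [h0] at hx
    exact absurd hx (by simp)
  have h1' : Le T (om X Y) := ⟨x0, hx0, by assumption⟩
  have n1 := nn _ h1'
  have n2 := nn _ h2
  have n3 := nn _ h3
  have hok : okz X.isSome Y.isSome Z.isSome V.isSome = true := by
    cases X <;> cases Y <;> cases Z <;> cases V <;> simp_all [om, okz]
  have := apply_ineq hA (h _ _ _ _ hok) f T
    (by
      intro u hu
      simp only [List.mem_cons, List.not_mem_nil, or_false] at hu
      rcases hu with rfl | rfl | rfl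
      · exact ne_of _ _ _ _ n1
      · exact ne_of _ _ _ _ n2
      · exact ne_of _ _ _ _ n3)
    (ne_of _ _ _ _ h4)
    (by
      intro u hu
      simp only [List.mem_cons, List.not_mem_nil, or_false] at hu
      rcases hu with rfl | rfl | rfl
      · unfold P; rw [ev_append hA, eX, eY]; exact h1'
      · unfold P; rw [ev_append hA, eZ, eY]; exact h2
      · unfold P; rw [ev_append hA, eZ, eV]; exact h3)
  unfold P at this
  rwa [ev_append hA, eX, eV] at this

theorem crule (hA : Ai A) (h : ∀ x y z v, Holds A (cid x y z v).1 (cid x y z v).2)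
    (T b : A) (X Y Z V : Option A) (h1 : Le T (om X (om (some b) Y)))
    (h2 : Le T (om Z (om (some b) V))) : Le T (om X (om (some b) V)) := by
  classical
  have key : ∀ (W : Option A) (n : ℕ) (f : ℕ → A), (∀ x, W = some x → f n = x) →
      ev f (opt W.isSome n) = W := by
    intro W n f hf
    cases W with
    | none => simp [opt, ev]
    | some x => simp [opt, ev, om, hf x rfl]
  let f : ℕ → A := fun n => if n = 0 then X.getD b else if n = 1 then Y.getD b else
    if n = 2 then Z.getD b else if n = 3 then V.getD b else b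
  have eX : ev f (opt X.isSome 0) = X := key X 0 f (by rintro x rfl; simp [f])
  have eY : ev f (opt Y.isSome 1) = Y := key Y 1 f (by rintro x rfl; simp [f])
  have eZ : ev f (opt Z.isSome 2) = Z := key Z 2 f (by rintro x rfl; simp [f])
  have eV : ev f (opt V.isSome 3) = V := key V 3 f (by rintro x rfl; simp [f])
  have eb : ∀ l, ev f (4 :: l) = om (some b) (ev f l) := by
    intro l; simp [ev, f]
  have := apply_ineq hA (h X.isSome Y.isSome Z.isSome V.isSome) f T
    (by
      intro u hu
      simp only [List.mem_cons, List.not_mem_nil, or_false] at hu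
      rcases hu with rfl | rfl <;> simp)
    (by simp)
    (by
      intro u hu
      simp only [List.mem_cons, List.not_mem_nil, or_false] at hu
      rcases hu with rfl | rfl
      · unfold P; rw [ev_append hA, eb, eX, eY]; exact h1
      · unfold P; rw [ev_append hA, eb, eZ, eV]; exact h2)
  unfold P at this
  rwa [ev_append hA, eb, eX, eV] at this

end alg

end Pool.Agent.R685.Ai
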