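import Mathlib
import Pool.Agent.R685.AiAlg

/-! The language of the words below an element, and the completeness arguments. -/

namespace Pool.Agent.R685.Ai

open LangB

section alg

variable {A : Type} [Add A] [Mul A]

/-- The language of the words below `T`, with the empty word if it is forced. -/
def La (f : ℕ → A) (T : A) (l : List ℕ) : Prop :=
  P f T l ∨ (l = [] ∧ ∃ z y, P f T z ∧ P f T y ∧ P f T (z ++ y))

theorem La_ne {f : ℕ → A} {T : A} {l : List ℕ} (h : l ≠ []) : La f T l ↔ P f T l := by
  unfold La
  constructor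
  · rintro (h1 | ⟨h1, _⟩)
    · exact h1
    · exact absurd h1 h
  · exact Or.inl

variable (hA : Ai A)
  (hz : ∀ x y z v, okz x y z v = true → Holds A (zid x y z v).1 (zid x y z v).2)
  (hc : ∀ x y z v, Holds A (cid x y z v).1 (cid x y z v).2)

include hA hz in
theorem zz (f : ℕ → A) (T : A) (x y z v : List ℕ) (h1 : P f T (x ++ y)) (h2 : P f T (z ++ y))
    (h3 : P f T (z ++ v)) (h4 : x ++ v ≠ []) : P f T (x ++ v) := by
  unfold P at *
  obtain ⟨w, hw⟩ := ev_ne_none f h4
  rw [ev_append hA] at *
  exact zrule hA hz T _ _ _ _ h1 h2 h3 (by rw [hw]; simp)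

include hA hc in
theorem cc (f : ℕ → A) (T : A) (x : List ℕ) (b : ℕ) (y z v : List ℕ) (h1 : P f T (x ++ b :: y))
    (h2 : P f T (z ++ b :: v)) : P f T (x ++ b :: v) := by
  unfold P at *
  rw [ev_append hA, ev] at *
  exact crule hA hc T _ _ _ _ _ h1 h2

include hA hz hc in
theorem rectLa (f : ℕ → A) (T : A) : Rect (La f T) := by
  have Z := zz hA hz f T
  constructor
  · intro x y z v h1 h2 h3
    by_cases hxv : x ++ v = []
    · obtain ⟨rfl, rfl⟩ := List.append_eq_nil_iff.1 hxv
      simp only [List.nil_append, List.append_nil] at h1 h2 h3 ⊢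
      rcases h3 with h3 | ⟨rfl, h3⟩
      · rcases h1 with h1 | ⟨rfl, h1⟩
        · have hne : z ++ y ≠ [] := by
            have := P_ne h3
            simp [this]
          rw [La_ne hne] at h2
          exact Or.inr ⟨rfl, z, y, h3, h1, h2⟩
        · exact Or.inr ⟨rfl, h1⟩
      · exact Or.inr ⟨rfl, h3⟩
    · rw [La_ne hxv]
      rcases h1 with h1 | ⟨e1, Z0, Y0, E1, E2, E3⟩
      · rcases h2 with h2 | ⟨e2, Z0, Y0, E1, E2, E3⟩
        · rcases h3 with h3 | ⟨e3, Z0, Y0, E1, E2, E3⟩
          · exact Z x y z v h1 h2 h3 hxv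
          · obtain ⟨rfl, rfl⟩ := List.append_eq_nil_iff.1 e3
            simp only [List.nil_append, List.append_nil] at *
            have h5 : P f T (Z0 ++ y) := by
              have := Z Z0 Y0 [] y E3 (by simpa using E2) (by simpa using h2)
                (by simp [P_ne E1])
              simpa using this
            have := Z x y Z0 [] h1 h5 (by simpa using E1) (by simpa using hxv)
            simpa using this
        · obtain ⟨rfl, rfl⟩ := List.append_eq_nil_iff.1 e2
          simp only [List.nil_append, List.append_nil] at *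
          rcases h3 with h3 | ⟨rfl, _⟩
          · have h5 : P f T (x ++ Y0) := by
              have := Z x [] Z0 Y0 (by simpa using h1) (by simpa using E1) E3
                (by simp [P_ne E2])
              exact this
            have := Z x Y0 [] v h5 (by simpa using E2) (by simpa using h3) hxv
            exact this
          · simpa using h1
      · obtain ⟨rfl, rfl⟩ := List.append_eq_nil_iff.1 e1
        simp only [List.nil_append, List.append_nil] at *
        have h3' : P f T (z ++ v) := by
          rwa [La_ne (by simp [hxv])] at h3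
        rcases h2 with h2 | ⟨rfl, _⟩
        · have h5 : P f T (z ++ Y0) := by
            have := Z z [] Z0 Y0 (by simpa using h2) (by simpa using E1) E3
              (by simp [P_ne E2])
            exact this
          have := Z [] Y0 z v (by simpa using E2) h5 h3' (by simpa using hxv)
          simpa using this
        · simpa using h3'
  · intro x b y z v h1 h2
    rw [La_ne (by simp)] at *
    exact cc hA hc f T x b y z v h1 h2

include hA in
theorem loopLa (hl : Holds A lid.1 lid.2) (f : ℕ → A) (T : A) : Loop (La f T) := by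
  intro x c y d v z hy hv hz' h
  rw [La_ne (by simp)] at *
  unfold P at *
  have e : ∀ l : List ℕ, d :: l = [d] ++ l := fun l => rfl
  obtain ⟨Y, hY⟩ := ev_ne_none f hy
  obtain ⟨V, hV⟩ := ev_ne_none f hv
  obtain ⟨Z, hZ⟩ := ev_ne_none f hz'
  let g : ℕ → A := fun n => if n = 0 then f c else if n = 1 then Y else if n = 2 then V else
    if n = 3 then f d else Z
  have h1 := hl g
  have key : ev f (d :: (c :: y ++ d :: v ++ c :: z)) = ev f (c :: y ++ d :: v ++ c :: z) := by
    have k1 : ev f (c :: y ++ d :: v ++ c :: z) = some ((wt [0, 1, 3, 2, 0, 4]).eval g) := by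
      simp only [ev_append hA, ev, hY, hV, hZ, om, wt, Term.eval, g, List.cons_append,
        List.append_assoc, hA.massoc]
      simp
    have k2 : ev f (d :: (c :: y ++ d :: v ++ c :: z)) = some ((wt [3, 0, 1, 3, 2, 0, 4]).eval g) := by
      rw [ev, k1]
      simp [om, wt, Term.eval, g]
    rw [k1, k2]
    exact congrArg some h1
  rw [ev_append hA] at h ⊢
  rw [key]
  exact h

/-- The set of words of a term. -/
def words : Term → Set (List ℕ)
  | .var n => {[n]}
  | .add s t => words s ∪ words t
  | .mul s t => {u | ∃ v ∈ words s, ∃ w ∈ words t, u = v ++ w}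

theorem words_ne (t : Term) : ∀ u ∈ words t, u ≠ [] := by
  induction t with
  | var n => intro u hu; simp only [words, Set.mem_singleton_iff] at hu; simp [hu]
  | add s t hs ht =>
    rintro u (hu | hu)
    · exact hs u hu
    · exact ht u hu
  | mul s t hs ht =>
    rintro u ⟨v, hv, w, hw, rfl⟩
    simp [hs v hv]

theorem words_nonempty (t : Term) : (words t).Nonempty := by
  induction t with
  | var n => exact ⟨[n], rfl⟩
  | add s t hs ht => exact hs.mono Set.subset_union_left
  | mul s t hs ht =>
    obtain ⟨v, hv⟩ := hs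
    obtain ⟨w, hw⟩ := ht
    exact ⟨v ++ w, v, hv, w, hw, rfl⟩

include hA in
theorem mul_mono {x x' y y' : A} (h1 : x + x' = x') (h2 : y + y' = y') :
    x * y + x' * y' = x' * y' := by
  have a1 : x * y + x * y' = x * y' := by rw [← hA.ldist, h2]
  have a2 : x * y' + x' * y' = x' * y' := by rw [← hA.rdist, h1]
  calc x * y + x' * y' = x * y + (x * y' + x' * y') := by rw [a2]
    _ = (x * y + x * y') + x' * y' := by rw [hA.assoc]
    _ = x' * y' := by rw [a1, a2]

include hA in
theorem word_le (f : ℕ → A) (t : Term) : ∀ u ∈ words t, P f (t.eval f) u := by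
  induction t with
  | var n =>
    intro u hu
    simp only [words, Set.mem_singleton_iff] at hu
    subst hu
    exact ⟨f n, by simp [ev, om], hA.idem _⟩
  | add s t hs ht =>
    rintro u (hu | hu)
    · obtain ⟨x, hx, hx'⟩ := hs u hu
      exact ⟨x, hx, by rw [Term.eval, ← hA.assoc, hx']⟩
    · obtain ⟨x, hx, hx'⟩ := ht u hu
      exact ⟨x, hx, by rw [Term.eval, ← hA.assoc, hA.comm x, hA.assoc, hx']⟩
  | mul s t hs ht =>
    rintro u ⟨v, hv, w, hw, rfl⟩
    obtain ⟨x, hx, hx'⟩ := hs v hv
    obtain ⟨y, hy, hy'⟩ := ht w hw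
    exact ⟨x * y, by rw [ev_append hA, hx, hy]; rfl, mul_mono hA hx' hy'⟩

inductive IsSum (Q : A → Prop) : A → Prop
  | base (x : A) : Q x → IsSum Q x
  | add (x y : A) : IsSum Q x → IsSum Q y → IsSum Q (x + y)

include hA in
theorem isSum_mul {Q R S : A → Prop} (h : ∀ x y, Q x → R y → S (x * y)) {x y : A}
    (hx : IsSum Q x) (hy : IsSum R y) : IsSum S (x * y) := by
  induction hx with
  | base x hx =>
    induction hy with
    | base y hy => exact .base _ (h x y hx hy)
    | add y z _ _ h1 h2 => rw [hA.ldist]; exact .add _ _ h1 h2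
  | add x z _ _ h1 h2 => rw [hA.rdist]; exact .add _ _ h1 h2

theorem isSum_mono {Q R : A → Prop} (h : ∀ x, Q x → R x) {x : A} (hx : IsSum Q x) :
    IsSum R x := by
  induction hx with
  | base x hx => exact .base _ (h x hx)
  | add x y _ _ h1 h2 => exact .add _ _ h1 h2

include hA in
theorem isSum_eval (f : ℕ → A) (t : Term) :
    IsSum (fun x => ∃ u ∈ words t, ev f u = some x) (t.eval f) := by
  induction t with
  | var n => exact .base _ ⟨[n], rfl, by simp [ev, om, Term.eval]⟩
  | add s t hs ht =>
    refine .add _ _ (isSum_mono ?_ hs) (isSum_mono ?_ ht)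
    · rintro x ⟨u, hu, hx⟩
      exact ⟨u, Or.inl hu, hx⟩
    · rintro x ⟨u, hu, hx⟩
      exact ⟨u, Or.inr hu, hx⟩
  | mul s t hs ht =>
    refine isSum_mul hA ?_ hs ht
    rintro x y ⟨u, hu, hx⟩ ⟨v, hv, hy⟩
    exact ⟨u ++ v, ⟨u, hu, v, hv, rfl⟩, by rw [ev_append hA, hx, hy]; rfl⟩

include hA in
theorem eval_le (f : ℕ → A) (t : Term) (T : A) (h : ∀ u ∈ words t, P f T u) :
    t.eval f + T = T := by
  have := isSum_eval hA f t
  generalize t.eval f = e at this ⊢
  induction this with
  | base x hx =>
    obtain ⟨u, hu, hx⟩ := hx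
    obtain ⟨y, hy, hy'⟩ := h u hu
    rw [hx] at hy
    simp only [Option.some.injEq] at hy
    rw [hy]
    exact hy'
  | add x y _ _ h1 h2 => exact sum_le hA h1 h2

end alg

end Pool.Agent.R685.Ai
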