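import Mathlib
import Pool.Agent.R685.AiLang

/-! Completeness for `B2` and `B0`. -/

namespace Pool.Agent.R685.Ai

open LangB Classical

/-- matrix unit -/
def enc : Bool → Bool → B2
  | false, true => .a
  | true, false => .b
  | false, false => .ab
  | true, true => .ba

/-- the element with given label -/
def encO : Option (Bool × Bool) → B2
  | none => .zero
  | some (i, j) => enc i j

theorem enc_mul : ∀ i j k l, enc i j * enc k l = if j = k then enc i l else .zero := by decide
theorem enc_ne : ∀ i j, enc i j ≠ .zero := by decide
theorem enc_inj : ∀ i j k l, enc i j = enc k l → i = k ∧ j = l := by decide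
theorem zero_mul' : ∀ x : B2, B2.zero * x = .zero := by decide
theorem mul_zero' : ∀ x : B2, x * B2.zero = .zero := by decide
theorem enc_mul_any : ∀ i j, ∀ x : B2, enc i j * x ≠ .zero → ∃ k, enc i j * x = enc i k := by decide
theorem flat : ∀ x y : B2, x + y = y → y ≠ .zero → x = y := by decide
theorem flat_idem : ∀ x : B2, x + x = x := by decide

theorem aiB2 : Ai B2 := by
  constructor <;> decide

/-- assignment given by a colouring -/
noncomputable def asg (L : List ℕ → Prop) (χ : List ℕ → Bool) (n : ℕ) : B2 := encO (lab L χ n)

variable {L : List ℕ → Prop}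

theorem asg_eq (h : Rect L) {χ : List ℕ → Bool} (hχ : IsCol L χ) {p q : List ℕ} {b : ℕ}
    (hp : L (p ++ b :: q)) : asg L χ b = enc (χ p) (χ (p ++ [b])) := by
  unfold asg
  rw [lab_eq h hχ hp]
  rfl

theorem ev_good (h : Rect L) {χ : List ℕ → Bool} (hχ : IsCol L χ) (l : List ℕ) (b : ℕ)
    (p : List ℕ) (g : Good L (p ++ b :: l)) :
    ev (asg L χ) (b :: l) = some (enc (χ p) (χ (p ++ b :: l))) := by
  induction l generalizing b p with
  | nil =>
    obtain ⟨q, hq⟩ := g
    have hq' : L (p ++ b :: q) := by simpa [List.append_assoc] using hq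
    simp only [ev, om]
    rw [asg_eq h hχ hq']
  | cons c l ih =>
    have e : p ++ b :: c :: l = (p ++ [b]) ++ c :: l := by simp
    have g' := g
    rw [e] at g'
    obtain ⟨q, hq⟩ := g
    have hq' : L (p ++ b :: (c :: l ++ q)) := by simpa [List.append_assoc] using hq
    rw [ev, ih c (p ++ [b]) g', asg_eq h hχ hq']
    simp only [om, enc_mul]
    simp

theorem ev_cons_enc (f : ℕ → B2) (b : ℕ) (r : List ℕ) {i j : Bool} (hb : f b = enc i j) {x : B2}
    (hx : ev f (b :: r) = some x) (hx0 : x ≠ .zero) : ∃ k, x = enc i k := by
  rw [ev, hb] at hx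
  cases hr : ev f r with
  | none =>
    rw [hr] at hx
    simp only [om, Option.some.injEq] at hx
    exact ⟨j, hx.symm⟩
  | some y =>
    rw [hr] at hx
    simp only [om, Option.some.injEq] at hx
    subst hx
    exact enc_mul_any i j y hx0

theorem ev_cons_zero (f : ℕ → B2) (b : ℕ) (r : List ℕ) (hb : f b = .zero) :
    ev f (b :: r) = some .zero := by
  rw [ev, hb]
  cases ev f r with
  | none => rfl
  | some y => simp only [om, zero_mul']

/-- The value of `w` at the colouring is the value of the words of the language. -/
def Agree (L : List ℕ → Prop) (w : List ℕ) (χ : List ℕ → Bool) : Prop :=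
  ∀ u, L u → u ≠ [] → ev (asg L χ) w = some (enc (χ []) (χ u))

/-- the step: the next letter of `w` is in the language and starts at the right colour -/
theorem next_letter (h : Rect L) {χ : List ℕ → Bool} (hχ : IsCol L χ) {p : List ℕ} {b : ℕ}
    {r u : List ℕ} (hu : L u) (hu' : u ≠ []) (hag : Agree L (p ++ b :: r) χ) (g : Good L p) :
    ∃ p' q', L (p' ++ b :: q') ∧ χ p' = χ p := by
  have hv := hag u hu hu'
  rw [ev_append aiB2] at hv
  obtain ⟨x, hx⟩ := ev_ne_none (asg L χ) (u := b :: r) (by simp)
  -- x is not zero and starts with colour χ p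
  have main : ∃ k, x = enc (χ p) k := by
    cases p with
    | nil =>
      rw [hx] at hv
      simp only [ev, om, Option.some.injEq] at hv
      exact ⟨_, hv⟩
    | cons c p =>
      have h1 := ev_good h hχ p c [] (by simpa using g)
      rw [hx, h1] at hv
      simp only [om, Option.some.injEq, List.nil_append] at hv
      have hx0 : x ≠ .zero := by
        rintro rfl
        rw [mul_zero'] at hv
        exact enc_ne _ _ hv.symm
      have hb0 : asg L χ b ≠ .zero := by
        intro h0
        rw [ev_cons_zero _ _ _ h0] at hx
        simp only [Option.some.injEq] at hx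
        exact hx0 hx.symm
      have : ∃ i j, asg L χ b = enc i j := by
        unfold asg at hb0 ⊢
        cases hl : lab L χ b with
        | none => rw [hl] at hb0; exact absurd rfl hb0
        | some ij => exact ⟨ij.1, ij.2, rfl⟩
      obtain ⟨i, j, hij⟩ := this
      obtain ⟨k, rfl⟩ := ev_cons_enc _ b r hij hx hx0
      rw [enc_mul] at hv
      split_ifs at hv with hc
      · exact ⟨k, by rw [hc]⟩
      · exact absurd hv.symm (enc_ne _ _)
  obtain ⟨k, rfl⟩ := main
  cases hl : lab L χ b with
  | none =>
    have h0 : asg L χ b = .zero := by unfold asg; rw [hl]; rfl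
    rw [ev_cons_zero _ _ _ h0] at hx
    simp only [Option.some.injEq] at hx
    exact absurd hx.symm (enc_ne _ _)
  | some ij =>
    obtain ⟨i, j⟩ := ij
    have hij : asg L χ b = enc i j := by unfold asg; rw [hl]; rfl
    obtain ⟨k', hk'⟩ := ev_cons_enc _ b r hij hx (enc_ne _ _)
    have := (enc_inj _ _ _ _ hk').1
    obtain ⟨p', q', h1, h2, _⟩ := lab_some hl
    exact ⟨p', q', h1, by rw [h2, this]⟩

theorem last_letter (h : Rect L) {χ : List ℕ → Bool} (hχ : IsCol L χ) {w u : List ℕ}
    (hw : w ≠ []) (hu : L u) (hu' : u ≠ []) (hag : Agree L w χ) (g : Good L w) :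
    χ w = χ u := by
  have hv := hag u hu hu'
  cases w with
  | nil => exact absurd rfl hw
  | cons c p =>
    have h1 := ev_good h hχ p c [] (by simpa using g)
    rw [h1] at hv
    simp only [Option.some.injEq, List.nil_append] at hv
    exact (enc_inj _ _ _ _ hv).2

/-- Completeness for all colourings. -/
theorem complete2 (h : Rect L) {w u : List ℕ} (hw : w ≠ []) (hu : L u) (hu' : u ≠ [])
    (hag : ∀ χ, IsCol L χ → Agree L w χ) : L w := by
  have main : ∀ (r p : List ℕ), p ++ r = w → Good L p → Good L w ∧ True := by
    intro r
    induction r with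
    | nil =>
      intro p hp g
      rw [List.append_nil] at hp
      rw [hp] at g
      exact ⟨g, trivial⟩
    | cons b r ih =>
      intro p hp g
      let χ : List ℕ → Bool := fun x => decide (Eqv L p x)
      have hχ : IsCol L χ := by
        intro x y hxy
        have : Eqv L p x ↔ Eqv L p y := ⟨fun e => e.trans hxy, fun e => e.trans hxy.symm⟩
        simp [χ, this]
      have hag' := hag χ hχ
      rw [← hp] at hag'
      obtain ⟨p', q', h1, h2⟩ := next_letter h hχ hu hu' hag' g
      have h3 : χ p = true := by simp [χ, Eqv.refl]
      rw [h3] at h2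
      have h4 : Eqv L p p' := by simpa [χ] using h2
      refine ih (p ++ [b]) (by simpa using hp) ?_
      have h5 := (h4 (b :: q')).2 h1
      exact ⟨q', by simpa [List.append_assoc] using h5⟩
  have g := (main w [] (by simp) ⟨u, by simpa using hu⟩).1
  let χ : List ℕ → Bool := fun x => decide (Eqv L w x)
  have hχ : IsCol L χ := by
    intro x y hxy
    have : Eqv L w x ↔ Eqv L w y := ⟨fun e => e.trans hxy, fun e => e.trans hxy.symm⟩
    simp [χ, this]
  have h1 := last_letter h hχ hw hu hu' (hag χ hχ) g
  have h3 : χ w = true := by simp [χ, Eqv.refl]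
  rw [h3] at h1
  have h4 : Eqv L w u := by simpa [χ] using h1.symm
  have h5 := (h4 []).2 (by simpa using hu)
  simpa using h5

/-- monotone colourings -/
def IsMono (L : List ℕ → Prop) (χ : List ℕ → Bool) : Prop :=
  ∀ p b, χ p = true → χ (p ++ [b]) = true

/-- Completeness for monotone colourings. -/
theorem complete0 (h : Rect L) (hl : Loop L) {w u : List ℕ} (hw : w ≠ []) (hu : L u)
    (hu' : u ≠ []) (hag : ∀ χ, IsCol L χ → IsMono L χ → Agree L w χ) : L w := by
  have col : ∀ k, IsCol L (fun x => decide (Reach L k x)) := by
    intro k x y hxy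
    have : Reach L k x ↔ Reach L k y := ⟨fun e => e.of_eqv hxy, fun e => e.of_eqv hxy.symm⟩
    simp [this]
  have mono : ∀ k, IsMono L (fun x => decide (Reach L k x)) := by
    intro k p b hp
    simp only [decide_eq_true_eq] at hp ⊢
    exact hp.step b
  have main : ∀ (r p : List ℕ), p ++ r = w → Good L p → Good L w ∧ True := by
    intro r
    induction r with
    | nil =>
      intro p hp g
      rw [List.append_nil] at hp
      rw [hp] at g
      exact ⟨g, trivial⟩
    | cons b r ih =>
      intro p hp g
      have hag1 := hag _ (col p) (mono p)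
      rw [← hp] at hag1
      obtain ⟨p', q', h1, h2⟩ := next_letter h (col p) hu hu' hag1 g
      have h3 : Reach L p p' := by
        have : decide (Reach L p p) = true := by simp [Reach.refl]
        rw [this] at h2
        simpa using h2
      have hag2 := hag _ (col p') (mono p')
      rw [← hp] at hag2
      obtain ⟨p'', q'', h1', h2'⟩ := next_letter h (col p') hu hu' hag2 g
      have e := eqv_letter h h1 h1'
      have h3' : Reach L p' p := by
        have : decide (Reach L p' p'') = true := by
          simp only [decide_eq_true_eq]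
          exact (Reach.refl p').of_eqv e
        rw [this] at h2'
        simpa using h2'.symm
      have h4 := eqv_of_reach h hl g h3 h3'
      refine ih (p ++ [b]) (by simpa using hp) ?_
      have h5 := (h4 (b :: q')).2 h1
      exact ⟨q', by simpa [List.append_assoc] using h5⟩
  have g := (main w [] (by simp) ⟨u, by simpa using hu⟩).1
  have h1 := last_letter h (col w) hw hu hu' (hag _ (col w) (mono w)) g
  have h2 := last_letter h (col u) hw hu hu' (hag _ (col u) (mono u)) g
  have h3 : Reach L w u := by
    have : decide (Reach L w w) = true := by simp [Reach.refl]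
    rw [this] at h1
    simpa using h1.symm
  have h4 : Reach L u w := by
    have : decide (Reach L u u) = true := by simp [Reach.refl]
    rw [this] at h2
    simpa using h2
  have h5 := eqv_of_reach h hl g h3 h4
  have h6 := (h5 []).2 (by simpa using hu)
  simpa using h6

end Pool.Agent.R685.Ai
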