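import Mathlib
import Pool.Agent.R685.AiAlg

/-! Soundness of the identities in `B2` and `B0`. -/

namespace Pool.Agent.R685.Ai

theorem zid_B2 : ∀ x y z v, okz x y z v = true → Holds B2 (zid x y z v).1 (zid x y z v).2 := by
  intro x y z v h f
  have key : ∀ x y z v, okz x y z v = true → ∀ a0 a1 a2 a3 : B2,
      (zid x y z v).1.eval (fun n => if n = 0 then a0 else if n = 1 then a1 else
        if n = 2 then a2 else a3) =
      (zid x y z v).2.eval (fun n => if n = 0 then a0 else if n = 1 then a1 else
        if n = 2 then a2 else a3) := by decide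
  have := key x y z v h (f 0) (f 1) (f 2) (f 3)
  revert this h
  cases x <;> cases y <;> cases z <;> cases v <;>
    simp [okz, zid, ineq, opt, st, wt, Term.eval]

/-- optional left product -/
def lm (x : Option B2) (y : B2) : B2 := match x with
  | none => y
  | some x => x * y

def rm (y : B2) (x : Option B2) : B2 := match x with
  | none => y
  | some x => y * x

theorem rm_zero (x : Option B2) : rm .zero x = .zero := by
  revert x; decide

theorem lm_zero (x : Option B2) : lm x .zero = .zero := by
  revert x; decide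

theorem lm_rm (x y : Option B2) (b : B2) : lm x (rm b y) = rm (lm x b) y := by
  revert x y b; decide

/-- crossing for two products -/
theorem cross1 : ∀ b l l' : B2, ∀ y v : Option B2, (∃ x, l = lm x b) → (∃ x, l' = lm x b) →
    rm l y + rm l' v + rm l v = rm l y + rm l' v := by decide

theorem cid_B2 : ∀ x y z v, Holds B2 (cid x y z v).1 (cid x y z v).2 := by
  intro x y z v f
  let o : Bool → ℕ → Option B2 := fun c n => if c then some (f n) else none
  have := cross1 (f 4) (lm (o x 0) (f 4)) (lm (o z 2) (f 4)) (o y 1) (o v 3) ⟨_, rfl⟩ ⟨_, rfl⟩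
  rw [← lm_rm, ← lm_rm, ← lm_rm] at this
  revert this
  cases x <;> cases y <;> cases z <;> cases v <;>
    simp [cid, ineq, opt, st, wt, Term.eval, o, lm, rm]

theorem lid_B2 : ∀ d : B2, d ≠ .b → ∀ c : B2, c ≠ .b → ∀ y : B2, y ≠ .b → ∀ v : B2, v ≠ .b →
    ∀ z : B2, z ≠ .b → d * (c * (y * (d * (v * (c * z))))) = c * (y * (d * (v * (c * z)))) := by decide

theorem lid_B0 : Holds B0 lid.1 lid.2 := by
  intro f
  apply Subtype.ext
  exact lid_B2 (f 3).1 (f 3).2 (f 0).1 (f 0).2 (f 1).1 (f 1).2 (f 2).1 (f 2).2 (f 4).1 (f 4).2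

theorem axs_B2 : ∀ p ∈ axs, Holds B2 p.1 p.2 := by
  have key : ∀ p ∈ axs, ∀ a0 a1 a2 : B2,
      p.1.eval (fun n => if n = 0 then a0 else if n = 1 then a1 else a2) =
      p.2.eval (fun n => if n = 0 then a0 else if n = 1 then a1 else a2) := by
    intro p hp
    simp only [axs, List.mem_cons, List.not_mem_nil, or_false] at hp
    rcases hp with rfl | rfl | rfl | rfl | rfl | rfl <;> decide
  intro p hp f
  have := key p hp (f 0) (f 1) (f 2)
  revert this
  simp only [axs, List.mem_cons, List.not_mem_nil, or_false] at hp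
  rcases hp with rfl | rfl | rfl | rfl | rfl | rfl <;> simp [Term.eval]

theorem E2_B2 : ∀ p ∈ E2, Holds B2 p.1 p.2 := by
  rintro p (h | ⟨x, y, z, v, hk, rfl⟩ | ⟨x, y, z, v, rfl⟩)
  · exact axs_B2 p h
  · exact zid_B2 x y z v hk
  · exact cid_B2 x y z v

theorem eval_B0 (f : ℕ → B0) (t : Term) : (t.eval f).1 = t.eval (fun n => (f n).1) := by
  induction t with
  | var n => rfl
  | add s t hs ht => rw [Term.eval, Term.eval, ← hs, ← ht]; rfl
  | mul s t hs ht => rw [Term.eval, Term.eval, ← hs, ← ht]; rfl

theorem holds_B0 {s t : Term} (h : Holds B2 s t) : Holds B0 s t := by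
  intro f
  apply Subtype.ext
  rw [eval_B0, eval_B0]
  exact h _

theorem E0_B0 : ∀ p ∈ E0, Holds B0 p.1 p.2 := by
  rintro p (h | h)
  · exact holds_B0 (E2_B2 p h)
  · rw [Set.mem_singleton_iff] at h
    subst h
    exact lid_B0

end Pool.Agent.R685.Ai
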