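import Pool.Agent.H163R3.Gras

set_option autoImplicit false
set_option linter.unusedSectionVars false

/-!
A solvable variety of Lie algebras without a finite basic superrank.
-/

namespace Pool.Agent.R685

open Pool.Agent.H163R3 TensorProduct

universe u

variable {F : Type u} [Field F]

/-! ### noncommutative determinants -/

section dt

variable {R : Type u} [Ring R] [Algebra F R]

/-- ordered products -/
noncomputable def pr (h : ℕ) (v : Fin h → R) : R := (List.ofFn v).prod

theorem pr_succ (h : ℕ) (v : Fin (h + 1) → R) :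
    pr (h + 1) v = v 0 * pr h (fun k => v k.succ) := by
  unfold pr
  rw [List.ofFn_succ, List.prod_cons]

/-- determinant of a matrix of operators, with the factors in the order of the columns -/
noncomputable def dt (h : ℕ) (U : Fin h → Fin h → R) : R :=
  ∑ σ : Equiv.Perm (Fin h), Equiv.Perm.sign σ • pr h (fun i => U (σ i) i)

theorem pr_sum : ∀ (h n : ℕ) (W : Fin h → Fin n → R),
    pr h (fun i => ∑ j, W i j) = ∑ r : Fin h → Fin n, pr h (fun i => W i (r i)) := by
  intro h n W
  have h2 := (MultilinearMap.mkPiAlgebraFin ℤ h R).map_sum W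
  exact h2

theorem pr_commute : ∀ (h : ℕ) (Z : Fin h → R) (a : R), (∀ i, Z i * a = a * Z i) →
    pr h Z * a = a * pr h Z
  | 0, Z, a, _ => by simp [pr]
  | h + 1, Z, a, hZ => by
    rw [pr_succ, mul_assoc, pr_commute h _ a (fun i => hZ i.succ), ← mul_assoc, hZ 0, mul_assoc]

theorem pr_mul : ∀ (h : ℕ) (Z V : Fin h → R), (∀ i j, Z i * V j = V j * Z i) →
    pr h (fun i => Z i * V i) = pr h Z * pr h V
  | 0, Z, V, _ => by simp [pr]
  | h + 1, Z, V, hZ => by
    rw [pr_succ, pr_succ, pr_succ, pr_mul h (fun k => Z k.succ) (fun k => V k.succ)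
      (fun i j => hZ _ _)]
    have := pr_commute h (fun k => Z k.succ) (V 0) (fun i => hZ _ _)
    calc Z 0 * V 0 * (pr h (fun k => Z k.succ) * pr h (fun k => V k.succ))
        = Z 0 * (V 0 * pr h (fun k => Z k.succ)) * pr h (fun k => V k.succ) := by
          noncomm_ring
      _ = _ := by rw [← this]; noncomm_ring

theorem pr_perm (h : ℕ) (Z : Fin h → R) (hZ : ∀ i j, Z i * Z j = Z j * Z i)
    (σ : Equiv.Perm (Fin h)) : pr h (fun i => Z (σ i)) = pr h Z := by
  unfold pr
  have hp := σ.ofFn_comp_perm Z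
  refine List.Perm.prod_eq' hp ?_
  rw [List.pairwise_ofFn]
  intro i j _
  exact hZ _ _

theorem dt_zero [CharZero F] {h n : ℕ} (hn : n < h) (Z : Fin h → Fin n → R)
    (V : Fin n → Fin h → R)
    (hZ : ∀ i j k l, Z i j * Z k l = Z k l * Z i j)
    (hZV : ∀ i j k l, Z i j * V k l = V k l * Z i j) :
    dt h (fun k i => ∑ j, Z k j * V j i) = 0 := by
  unfold dt
  have h1 : ∀ σ : Equiv.Perm (Fin h),
      Equiv.Perm.sign σ • pr h (fun i => ∑ j, Z (σ i) j * V j i)
      = ∑ r : Fin h → Fin n, Equiv.Perm.sign σ •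
          (pr h (fun i => Z (σ i) (r i)) * pr h (fun i => V (r i) i)) := by
    intro σ
    rw [pr_sum h n (fun i j => Z (σ i) j * V j i), Finset.smul_sum]
    refine Finset.sum_congr rfl fun r _ => ?_
    rw [pr_mul h (fun i => Z (σ i) (r i)) (fun i => V (r i) i) (fun i j => hZV _ _ _ _)]
  rw [Finset.sum_congr rfl (fun σ _ => h1 σ), Finset.sum_comm]
  refine Finset.sum_eq_zero fun r _ => ?_
  obtain ⟨i, j, hij, hr⟩ := Fintype.exists_ne_map_eq_of_card_lt r (by simpa using hn)
  have h2 : ∑ σ : Equiv.Perm (Fin h), Equiv.Perm.sign σ •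
      (pr h (fun i => Z (σ i) (r i)) * pr h (fun i => V (r i) i))
      = - ∑ σ : Equiv.Perm (Fin h), Equiv.Perm.sign σ •
      (pr h (fun i => Z (σ i) (r i)) * pr h (fun i => V (r i) i)) := by
    rw [← Finset.sum_neg_distrib]
    refine Fintype.sum_equiv (Equiv.mulRight (Equiv.swap i j)) _ _ fun σ => ?_
    have h3 : pr h (fun k => Z ((σ * Equiv.swap i j) k) (r k)) = pr h (fun k => Z (σ k) (r k)) := by
      have h4 : (fun k => Z ((σ * Equiv.swap i j) k) (r k))
          = fun k => (fun k => Z (σ k) (r k)) (Equiv.swap i j k) := by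
        funext k
        simp only [Equiv.Perm.coe_mul, Function.comp_apply]
        congr 1
        by_cases h5 : k = i
        · subst h5; rw [Equiv.swap_apply_left, hr]
        · by_cases h6 : k = j
          · subst h6; rw [Equiv.swap_apply_right, hr]
          · rw [Equiv.swap_apply_of_ne_of_ne h5 h6]
      rw [h4]
      exact pr_perm h (fun k => Z (σ k) (r k)) (fun _ _ => hZ _ _ _ _) _
    simp only [Equiv.coe_mulRight]
    rw [h3, Equiv.Perm.sign_mul, Equiv.Perm.sign_swap hij]
    simp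
  have h5 : (2 : F) • (∑ σ : Equiv.Perm (Fin h), Equiv.Perm.sign σ •
      (pr h (fun i => Z (σ i) (r i)) * pr h (fun i => V (r i) i))) = 0 := by
    rw [two_smul]
    nth_rw 2 [h2]
    exact add_neg_cancel _
  exact (smul_eq_zero.mp h5).resolve_left two_ne_zero

end dt

section filt

variable {V : Type u} [AddCommGroup V] [Module F V] (T : ℕ → Submodule F V)

theorem pr_pres {r : ℕ} : ∀ (h : ℕ) (U : Fin h → Module.End F V),
    (∀ i, ∀ t ∈ T r, U i t ∈ T r) → ∀ t ∈ T r, (pr h U) t ∈ T r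
  | 0, U, _, t, ht => by simpa [pr] using ht
  | h + 1, U, hU, t, ht => by
    rw [pr_succ, Module.End.mul_apply]
    exact hU 0 _ (pr_pres h _ (fun i => hU i.succ) _ ht)

theorem pr_shift : ∀ (h : ℕ) (U P : Fin h → Module.End F V),
    (∀ r i, ∀ t ∈ T r, U i t ∈ T r) → (∀ r i, ∀ t ∈ T r, P i t ∈ T r) →
    (∀ r i, ∀ t ∈ T r, U i t - P i t ∈ T (r + 1)) →
    ∀ r, ∀ t ∈ T r, (pr h U) t - (pr h P) t ∈ T (r + 1)
  | 0, U, P, _, _, _, r, t, ht => by simp [pr]
  | h + 1, U, P, hU, hP, hD, r, t, ht => by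
    rw [pr_succ, pr_succ, Module.End.mul_apply, Module.End.mul_apply]
    have e : U 0 ((pr h fun k => U k.succ) t) - P 0 ((pr h fun k => P k.succ) t)
        = (U 0 ((pr h fun k => U k.succ) t - (pr h fun k => P k.succ) t))
        + (U 0 ((pr h fun k => P k.succ) t) - P 0 ((pr h fun k => P k.succ) t)) := by
      rw [map_sub]; abel
    rw [e]
    exact Submodule.add_mem _
      (hU (r + 1) 0 _ (pr_shift h _ _ (fun r i => hU r i.succ) (fun r i => hP r i.succ)
        (fun r i => hD r i.succ) r _ ht))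
      (hD r 0 _ (pr_pres T h _ (fun i => hP r i.succ) _ ht))

theorem dt_shift (h : ℕ) (U P : Fin h → Fin h → Module.End F V)
    (hU : ∀ r i j, ∀ t ∈ T r, U i j t ∈ T r) (hP : ∀ r i j, ∀ t ∈ T r, P i j t ∈ T r)
    (hD : ∀ r i j, ∀ t ∈ T r, U i j t - P i j t ∈ T (r + 1)) (h0 : dt h P = 0)
    (r : ℕ) (t : V) (ht : t ∈ T r) : (dt h U) t ∈ T (r + 1) := by
  have e : (dt h U) t = (dt h U - dt h P) t := by rw [h0, sub_zero]
  rw [e]
  unfold dt
  rw [← Finset.sum_sub_distrib, LinearMap.sum_apply]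
  refine Submodule.sum_mem _ fun σ _ => ?_
  have h1 := pr_shift T h (fun i => U (σ i) i) (fun i => P (σ i) i) (fun r i => hU r (σ i) i)
    (fun r i => hP r (σ i) i) (fun r i => hD r (σ i) i) r t ht
  rw [← smul_sub]
  rcases Int.units_eq_one_or (Equiv.Perm.sign σ) with h | h <;> rw [h]
  · simpa using h1
  · have := Submodule.neg_mem _ h1
    simpa using this

theorem pow_shift' {U : Module.End F V} (hU : ∀ r, ∀ t ∈ T r, U t ∈ T (r + 1)) :
    ∀ (C r : ℕ), ∀ t ∈ T r, (U ^ C) t ∈ T (r + C)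
  | 0, r, t, ht => by simpa using ht
  | C + 1, r, t, ht => by
    rw [pow_succ', Module.End.mul_apply]
    exact hU _ _ (pow_shift' hU C r t ht)

end filt

/-! ### the identities -/

/-- right multiplication -/
noncomputable def Ro {B : Type u} [NonUnitalNonAssocRing B] [Module F B]
    [IsScalarTower F B B] [SMulCommClass F B B] (t : B) : Module.End F B :=
  LinearMap.mulRight F t

@[simp] theorem Ro_apply {B : Type u} [NonUnitalNonAssocRing B] [Module F B]
    [IsScalarTower F B B] [SMulCommClass F B B] (t s : B) : Ro (F := F) t s = s * t := rfl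

/-- test polynomials -/
noncomputable def tq (F : Type u) [Field F] (h C : ℕ) : Fr F :=
  ((dt h fun k i : Fin h => Ro (F := F) (X F (2 * (k : ℕ) + 3) * X F (2 * (i : ℕ) + 4))) ^ C)
    ((X F 0 * X F 1) * X F 2)

section nat

variable {B B' : Type u} [NonUnitalNonAssocRing B] [Module F B]
    [IsScalarTower F B B] [SMulCommClass F B B] [NonUnitalNonAssocRing B'] [Module F B']
    [IsScalarTower F B' B'] [SMulCommClass F B' B'] (φ : B →ₙₐ[F] B')

/-- intertwining -/
def Itw (U : Module.End F B) (U' : Module.End F B') : Prop := ∀ s, φ (U s) = U' (φ s)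

theorem Itw_pr : ∀ (h : ℕ) (U : Fin h → Module.End F B) (U' : Fin h → Module.End F B'),
    (∀ i, Itw φ (U i) (U' i)) → Itw φ (pr h U) (pr h U')
  | 0, U, U', _ => by intro s; simp [pr]
  | h + 1, U, U', H => by
    intro s
    rw [pr_succ, pr_succ, Module.End.mul_apply, Module.End.mul_apply, H 0,
      Itw_pr h _ _ (fun i => H i.succ) s]

theorem Itw_dt (h : ℕ) (U : Fin h → Fin h → Module.End F B)
    (U' : Fin h → Fin h → Module.End F B')
    (H : ∀ i j, Itw φ (U i j) (U' i j)) : Itw φ (dt h U) (dt h U') := by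
  intro s
  unfold dt
  rw [LinearMap.sum_apply, LinearMap.sum_apply, map_sum]
  refine Finset.sum_congr rfl fun σ _ => ?_
  have h1 := Itw_pr φ h (fun i => U (σ i) i) (fun i => U' (σ i) i) (fun i => H _ _) s
  rcases Int.units_eq_one_or (Equiv.Perm.sign σ) with h | h <;> rw [h]
  · simpa using h1
  · simpa using h1

theorem Itw_pow {U : Module.End F B} {U' : Module.End F B'} (H : Itw φ U U') :
    ∀ C, Itw φ (U ^ C) (U' ^ C)
  | 0 => by intro s; simp
  | C + 1 => by
    intro s
    rw [pow_succ', pow_succ', Module.End.mul_apply, Module.End.mul_apply, H, Itw_pow H C s]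

end nat

theorem tq_eval {B : Type u} [NonUnitalNonAssocRing B] [Module F B]
    [IsScalarTower F B B] [SMulCommClass F B B] (φ : Fr F →ₙₐ[F] B) (h C : ℕ) :
    φ (tq F h C) = ((dt h fun k i : Fin h => Ro (F := F)
      (φ (X F (2 * (k : ℕ) + 3)) * φ (X F (2 * (i : ℕ) + 4)))) ^ C)
      ((φ (X F 0) * φ (X F 1)) * φ (X F 2)) := by
  unfold tq
  rw [Itw_pow φ (Itw_dt φ h _ (fun k i : Fin h => Ro (F := F)
      (φ (X F (2 * (k : ℕ) + 3)) * φ (X F (2 * (i : ℕ) + 4)))) ?_) C]
  · simp
  · intro i j s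
    simp

/-- The variety: anticommutative, Jacobi identity, `((x y) z) ((t u) v) = 0`. -/
def V1 (F : Type u) [Field F] : Set (Fr F) :=
  {X F 0 * X F 0,
    (X F 0 * X F 1) * X F 2 + (X F 1 * X F 2) * X F 0 + (X F 2 * X F 0) * X F 1,
    ((X F 0 * X F 1) * X F 2) * ((X F 3 * X F 4) * X F 5)}

/-! ### words -/

section words

variable {G : Type u} [Ring G] [Algebra F G] {e : ℕ → G}

theorem list_words (m : ℕ) (ps : List (ZMod 2)) : ∀ start : ℕ, ∃ (gs : List G) (n : ℕ),
    List.Forall₂ (fun g p => g ∈ Gw F e m p) gs ps ∧ gs.prod = gw e (List.range' start n) := by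
  induction ps with
  | nil => intro start; exact ⟨[], 0, List.Forall₂.nil, by simp [gw]⟩
  | cons p ps ih =>
    intro start
    obtain ⟨a, ha1, ha2⟩ := exists_word m p
    obtain ⟨gs, n, h1, h2⟩ := ih (start + a)
    refine ⟨gw e (List.range' start a) :: gs, a + n, List.Forall₂.cons ?_ h1, ?_⟩
    · exact Submodule.subset_span ⟨_, by simpa using ha1, by simpa using ha2, rfl⟩
    · rw [List.prod_cons, h2, ← gw_append, List.range'_append_1]

theorem six_words (he : IsGrassmann F e) (m : ℕ) (p : Fin 6 → ZMod 2) :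
    ∃ g : Fin 6 → G, (∀ i, g i ∈ Gw F e m (p i)) ∧ ∃ ψ : G →ₗ[F] F,
      ψ (((g 0 * g 1) * g 2) * ((g 3 * g 4) * g 5)) = 1 := by
  obtain ⟨gs, n, h1, h2⟩ := list_words (F := F) (e := e) m [p 0, p 1, p 2, p 3, p 4, p 5] 0
  obtain ⟨ψ, hψ⟩ := word_functional he n
  rcases h1 with _ | ⟨h0, h1⟩
  rcases h1 with _ | ⟨h1', h1⟩
  rcases h1 with _ | ⟨h2', h1⟩
  rcases h1 with _ | ⟨h3', h1⟩
  rcases h1 with _ | ⟨h4', h1⟩
  rcases h1 with _ | ⟨h5', h1⟩
  rcases h1 with _ | _
  rename_i g0 g1 g2 g3 g4 g5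
  refine ⟨![g0, g1, g2, g3, g4, g5], ?_, ψ, ?_⟩
  · intro i
    fin_cases i
    · exact h0
    · exact h1'
    · exact h2'
    · exact h3'
    · exact h4'
    · exact h5'
  · rw [← List.range_eq_range'] at h2
    simp only [List.prod_cons, List.prod_nil, mul_one] at h2
    have : ((g0 * g1) * g2) * ((g3 * g4) * g5) = g0 * (g1 * (g2 * (g3 * (g4 * g5)))) := by
      simp only [mul_assoc]
    show ψ (((g0 * g1) * g2) * ((g3 * g4) * g5)) = 1
    rw [this, h2, hψ]

end words

end Pool.Agent.R685
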