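import Pool.Agent.R685.LieSup

set_option autoImplicit false
set_option linter.unusedSectionVars false

namespace Pool.Agent.R685

open Pool.Agent.H163R3 TensorProduct

universe u

variable {F : Type u} [Field F]

variable {A' : Type u} [NonUnitalNonAssocRing A'] [Module F A'] [IsScalarTower F A' A']
  [SMulCommClass F A' A'] {A : ZMod 2 → Submodule F A'}
  {G : Type u} [Ring G] [Algebra F G] {e : ℕ → G}

/-! ### homogeneous parts -/

theorem homSum (hA : IsSuper F A) (a : A') : ∃ a0 ∈ A 0, ∃ a1 ∈ A 1, a0 + a1 = a := by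
  have : a ∈ A 0 ⊔ A 1 := by rw [hA.compl.sup_eq_top]; trivial
  rwa [Submodule.mem_sup] at this

theorem homDisj (hA : IsSuper F A) {a : A'} (h1 : a ∈ A 0) (h2 : a ∈ A 1) : a = 0 := by
  have := hA.compl.disjoint
  rw [Submodule.disjoint_def] at this
  exact this a h1 h2

theorem six_hom (he : IsGrassmann F e) (m : ℕ) (hA : IsSuper F A)
    (h : InVar F (V1 F) (Env e m A hA)) (p : Fin 6 → ZMod 2) (a : Fin 6 → A')
    (ha : ∀ i, a i ∈ A (p i)) :
    ((a 0 * a 1) * a 2) * ((a 3 * a 4) * a 5) = 0 := by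
  obtain ⟨g, hg, ψ, hψ⟩ := six_words he m p
  set x : Fin 6 → Env e m A hA := fun i => ⟨g i ⊗ₜ a i,
    Submodule.subset_span ⟨p i, g i, hg i, a i, ha i, rfl⟩⟩ with hx
  have h1 := h (((X F 0 * X F 1) * X F 2) * ((X F 3 * X F 4) * X F 5))
    (by unfold V1; simp)
    (FreeNonUnitalNonAssocAlgebra.lift F (fun i => if i = 0 then x 0 else if i = 1 then x 1 else
      if i = 2 then x 2 else if i = 3 then x 3 else if i = 4 then x 4 else x 5))
  have h2 : ((x 0 * x 1) * x 2) * ((x 3 * x 4) * x 5) = 0 := by simpa [X] using h1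
  have h3 : (((g 0 ⊗ₜ[F] a 0) * (g 1 ⊗ₜ[F] a 1)) * (g 2 ⊗ₜ[F] a 2)) *
    (((g 3 ⊗ₜ[F] a 3) * (g 4 ⊗ₜ[F] a 4)) * (g 5 ⊗ₜ[F] a 5)) = (0 : G ⊗[F] A') :=
    congrArg Subtype.val h2
  simp only [Algebra.TensorProduct.tmul_mul_tmul] at h3
  have h4 := congrArg (fun t => TensorProduct.lid F A' (LinearMap.rTensor A' ψ t)) h3
  simpa [hψ] using h4

theorem hom_key (hA : IsSuper F A) (g : A' →+ A') (hg : ∀ i, ∀ a ∈ A i, g a = 0) (a : A') :
    g a = 0 := by
  obtain ⟨a0, h0, a1, h1, rfl⟩ := homSum hA a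
  rw [map_add, hg 0 a0 h0, hg 1 a1 h1, add_zero]

theorem six_zero (he : IsGrassmann F e) (m : ℕ) (hA : IsSuper F A)
    (h : InVar F (V1 F) (Env e m A hA)) (a b c a' b' c' : A') :
    ((a * b) * c) * ((a' * b') * c') = 0 := by
  refine hom_key hA (AddMonoidHom.mk' (fun a => ((a * b) * c) * ((a' * b') * c'))
    (by intros; simp only [add_mul])) (fun i0 a ha => ?_) a
  refine hom_key hA (AddMonoidHom.mk' (fun b => ((a * b) * c) * ((a' * b') * c'))
    (by intros; simp only [add_mul, mul_add])) (fun i1 b hb => ?_) b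
  refine hom_key hA (AddMonoidHom.mk' (fun c => ((a * b) * c) * ((a' * b') * c'))
    (by intros; simp only [add_mul, mul_add])) (fun i2 c hc => ?_) c
  refine hom_key hA (AddMonoidHom.mk' (fun a' => ((a * b) * c) * ((a' * b') * c'))
    (by intros; simp only [add_mul, mul_add])) (fun i3 a' ha' => ?_) a'
  refine hom_key hA (AddMonoidHom.mk' (fun b' => ((a * b) * c) * ((a' * b') * c'))
    (by intros; simp only [add_mul, mul_add])) (fun i4 b' hb' => ?_) b'
  refine hom_key hA (AddMonoidHom.mk' (fun c' => ((a * b) * c) * ((a' * b') * c'))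
    (by intros; simp only [mul_add])) (fun i5 c' hc' => ?_) c'
  refine six_hom he m hA h ![i0, i1, i2, i3, i4, i5] ![a, b, c, a', b', c'] ?_
  intro i
  fin_cases i
  · exact ha
  · exact hb
  · exact hc
  · exact ha'
  · exact hb'
  · exact hc'

variable (F A') in
/-- the square of the algebra -/
def Sq : Submodule F A' := Submodule.span F {x | ∃ a b : A', a * b = x}

variable (F A') in
/-- the span of the triple products -/
def G3 : Submodule F A' := Submodule.span F {x | ∃ a b c : A', (a * b) * c = x}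

theorem G3_mul {s : A'} (hs : s ∈ G3 F A') (c : A') : s * c ∈ G3 F A' := by
  unfold G3 at hs
  induction hs using Submodule.span_induction with
  | zero => rw [zero_mul]; exact Submodule.zero_mem _
  | add x y _ _ hx hy => rw [add_mul]; exact Submodule.add_mem _ hx hy
  | smul k x _ hx => rw [smul_mul_assoc]; exact Submodule.smul_mem _ _ hx
  | mem y hy =>
    obtain ⟨a, b, d, rfl⟩ := hy
    exact Submodule.subset_span ⟨a * b, d, c, rfl⟩

theorem G3_zero (hz : ∀ a b c a' b' c' : A', ((a * b) * c) * ((a' * b') * c') = 0)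
    {s q : A'} (hs : s ∈ G3 F A') (hq : q ∈ Sq F A') (w : A') : s * (q * w) = 0 := by
  unfold G3 at hs
  induction hs using Submodule.span_induction with
  | zero => rw [zero_mul]
  | add x y _ _ hx hy => rw [add_mul, hx, hy, add_zero]
  | smul k x _ hx => rw [smul_mul_assoc, hx, smul_zero]
  | mem y hy =>
    obtain ⟨a, b, d, rfl⟩ := hy
    unfold Sq at hq
    induction hq using Submodule.span_induction with
    | zero => rw [zero_mul, mul_zero]
    | add x y _ _ hx hy => rw [add_mul, mul_add, hx, hy, add_zero]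
    | smul k x _ hx => rw [smul_mul_assoc, mul_smul_comm, hx, smul_zero]
    | mem y hy =>
      obtain ⟨a', b', rfl⟩ := hy
      exact hz _ _ _ _ _ _

theorem gen_dec {s : Finset A'}
    (hs : NonUnitalAlgebra.adjoin F (s : Set A') = ⊤) (a : A') :
    ∃ (c : Fin s.card → F), a - ∑ j, c j • (s.equivFin.symm j : A') ∈ Sq F A' := by
  let B : NonUnitalSubalgebra F A' :=
    { toSubmodule := Submodule.span F (s : Set A') ⊔ Sq F A'
      mul_mem' := by
        intro p q _ _
        exact Submodule.mem_sup_right (Submodule.subset_span ⟨p, q, rfl⟩) }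
  have h1 : NonUnitalAlgebra.adjoin F (s : Set A') ≤ B := by
    apply NonUnitalAlgebra.adjoin_le
    intro t ht
    exact Submodule.mem_sup_left (Submodule.subset_span ht)
  rw [hs] at h1
  have h2 : a ∈ Submodule.span F (s : Set A') ⊔ Sq F A' := h1 (NonUnitalAlgebra.mem_top)
  rw [Submodule.mem_sup] at h2
  obtain ⟨p, hp, q, hq, rfl⟩ := h2
  have hr : (s : Set A') = Set.range (fun j : Fin s.card => (s.equivFin.symm j : A')) := by
    ext t
    constructor
    · intro ht
      exact ⟨s.equivFin ⟨t, ht⟩, by simp⟩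
    · rintro ⟨j, rfl⟩
      exact (s.equivFin.symm j).2
  rw [hr, Submodule.mem_span_range_iff_exists_fun] at hp
  obtain ⟨c, rfl⟩ := hp
  refine ⟨c, ?_⟩
  rw [add_sub_cancel_left]
  exact hq

theorem Sq_hom (hA : IsSuper F A) {q : A'} (hq : q ∈ Sq F A') :
    ∃ q0 ∈ Sq F A', ∃ q1 ∈ Sq F A', q0 ∈ A 0 ∧ q1 ∈ A 1 ∧ q0 + q1 = q := by
  unfold Sq at hq
  induction hq using Submodule.span_induction with
  | zero => exact ⟨0, Submodule.zero_mem _, 0, Submodule.zero_mem _, Submodule.zero_mem _,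
      Submodule.zero_mem _, by simp⟩
  | add x y _ _ hx hy =>
    obtain ⟨x0, h1, x1, h2, h3, h4, rfl⟩ := hx
    obtain ⟨y0, h1', y1, h2', h3', h4', rfl⟩ := hy
    exact ⟨x0 + y0, Submodule.add_mem _ h1 h1', x1 + y1, Submodule.add_mem _ h2 h2',
      Submodule.add_mem _ h3 h3', Submodule.add_mem _ h4 h4', by abel⟩
  | smul k x _ hx =>
    obtain ⟨x0, h1, x1, h2, h3, h4, rfl⟩ := hx
    exact ⟨k • x0, Submodule.smul_mem _ _ h1, k • x1, Submodule.smul_mem _ _ h2,
      Submodule.smul_mem _ _ h3, Submodule.smul_mem _ _ h4, by rw [smul_add]⟩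
  | mem y hy =>
    obtain ⟨a, b, rfl⟩ := hy
    obtain ⟨a0, ha0, a1, ha1, rfl⟩ := homSum hA a
    obtain ⟨b0, hb0, b1, hb1, rfl⟩ := homSum hA b
    refine ⟨a0 * b0 + a1 * b1, Submodule.add_mem _ (Submodule.subset_span ⟨_, _, rfl⟩)
      (Submodule.subset_span ⟨_, _, rfl⟩), a0 * b1 + a1 * b0,
      Submodule.add_mem _ (Submodule.subset_span ⟨_, _, rfl⟩)
      (Submodule.subset_span ⟨_, _, rfl⟩), ?_, ?_, ?_⟩
    · refine Submodule.add_mem _ ?_ ?_
      · have := hA.mul 0 0 _ ha0 _ hb0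
        simpa using this
      · have := hA.mul 1 1 _ ha1 _ hb1
        have e : (1 + 1 : ZMod 2) = 0 := by decide
        rwa [e] at this
    · refine Submodule.add_mem _ ?_ ?_
      · have := hA.mul 0 1 _ ha0 _ hb1
        simpa using this
      · have := hA.mul 1 0 _ ha1 _ hb0
        simpa using this
    · rw [add_mul, mul_add, mul_add]; abel

theorem gen_ev (hA : IsSuper F A) {n : ℕ} {v α β : Fin n → A'} (hα : ∀ j, α j ∈ A 0)
    (hβ : ∀ j, β j ∈ A 1) (hv : ∀ j, α j + β j = v j)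
    (hg : ∀ a : A', ∃ (c : Fin n → F), a - ∑ j, c j • v j ∈ Sq F A')
    {a : A'} (ha : a ∈ A 0) :
    ∃ (c : Fin n → F), a - ∑ j, c j • α j ∈ Sq F A' := by
  obtain ⟨c, hc⟩ := hg a
  refine ⟨c, ?_⟩
  obtain ⟨q0, h1, q1, h2, h3, h4, h5⟩ := Sq_hom hA hc
  have e1 : a - ∑ j, c j • α j - q0 = ∑ j, c j • β j + q1 := by
    have e2 : ∑ j, c j • v j = ∑ j, c j • α j + ∑ j, c j • β j := by
      rw [← Finset.sum_add_distrib]
      refine Finset.sum_congr rfl fun j _ => ?_
      rw [← hv j, smul_add]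
    rw [e2] at h5
    have : a = q0 + q1 + (∑ j, c j • α j + ∑ j, c j • β j) := by rw [h5]; abel
    rw [this]; abel
  have h6 : a - ∑ j, c j • α j - q0 = 0 := by
    apply homDisj hA
    · exact Submodule.sub_mem _ (Submodule.sub_mem _ ha
        (Submodule.sum_mem _ fun j _ => Submodule.smul_mem _ _ (hα j))) h3
    · rw [e1]
      exact Submodule.add_mem _ (Submodule.sum_mem _ fun j _ => Submodule.smul_mem _ _ (hβ j)) h4
  rw [sub_eq_zero] at h6
  rw [h6]; exact h1

theorem gen_od (hA : IsSuper F A) {n : ℕ} {v α β : Fin n → A'} (hα : ∀ j, α j ∈ A 0)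
    (hβ : ∀ j, β j ∈ A 1) (hv : ∀ j, α j + β j = v j)
    (hg : ∀ a : A', ∃ (c : Fin n → F), a - ∑ j, c j • v j ∈ Sq F A')
    {a : A'} (ha : a ∈ A 1) :
    ∃ (c : Fin n → F), a - ∑ j, c j • β j ∈ Sq F A' := by
  obtain ⟨c, hc⟩ := hg a
  refine ⟨c, ?_⟩
  obtain ⟨q0, h1, q1, h2, h3, h4, h5⟩ := Sq_hom hA hc
  have e1 : a - ∑ j, c j • β j - q1 = ∑ j, c j • α j + q0 := by
    have e2 : ∑ j, c j • v j = ∑ j, c j • α j + ∑ j, c j • β j := by
      rw [← Finset.sum_add_distrib]
      refine Finset.sum_congr rfl fun j _ => ?_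
      rw [← hv j, smul_add]
    rw [e2] at h5
    have : a = q0 + q1 + (∑ j, c j • α j + ∑ j, c j • β j) := by rw [h5]; abel
    rw [this]; abel
  have h6 : a - ∑ j, c j • β j - q1 = 0 := by
    apply homDisj hA
    · rw [e1]
      exact Submodule.add_mem _ (Submodule.sum_mem _ fun j _ => Submodule.smul_mem _ _ (hα j)) h3
    · exact Submodule.sub_mem _ (Submodule.sub_mem _ ha
        (Submodule.sum_mem _ fun j _ => Submodule.smul_mem _ _ (hβ j))) h4
  rw [sub_eq_zero] at h6
  rw [h6]; exact h2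

variable (F A' G) in
/-- `G ⊗ A' ^ 2` -/
def SqT : Submodule F (G ⊗[F] A') :=
  Submodule.span F {t | ∃ (k : G) (q : A'), q ∈ Sq F A' ∧ k ⊗ₜ[F] q = t}

variable (F A' G) in
/-- `G ⊗ γ_3` -/
def GT : Submodule F (G ⊗[F] A') :=
  Submodule.span F {t | ∃ (k : G) (q : A'), q ∈ G3 F A' ∧ k ⊗ₜ[F] q = t}

theorem GT_zero (hz : ∀ a b c a' b' c' : A', ((a * b) * c) * ((a' * b') * c') = 0)
    {s q : G ⊗[F] A'} (hs : s ∈ GT F A' G) (hq : q ∈ SqT F A' G) (w : G ⊗[F] A') :
    s * (q * w) = 0 := by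
  unfold GT at hs
  induction hs using Submodule.span_induction with
  | zero => rw [zero_mul]
  | add x y _ _ hx hy => rw [add_mul, hx, hy, add_zero]
  | smul k x _ hx => rw [smul_mul_assoc, hx, smul_zero]
  | mem y hy =>
    obtain ⟨k, a, ha, rfl⟩ := hy
    unfold SqT at hq
    induction hq using Submodule.span_induction with
    | zero => rw [zero_mul, mul_zero]
    | add x y _ _ hx hy => rw [add_mul, mul_add, hx, hy, add_zero]
    | smul k x _ hx => rw [smul_mul_assoc, mul_smul_comm, hx, smul_zero]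
    | mem y hy =>
      obtain ⟨k', a', ha', rfl⟩ := hy
      induction w using TensorProduct.induction_on with
      | zero => rw [mul_zero, mul_zero]
      | add x y hx hy => rw [mul_add, mul_add, hx, hy, add_zero]
      | tmul u b =>
        rw [Algebra.TensorProduct.tmul_mul_tmul, Algebra.TensorProduct.tmul_mul_tmul,
          G3_zero hz ha ha', TensorProduct.tmul_zero]

/-- elements that are combinations of the homogeneous generators modulo the square -/
def Gd (e : ℕ → G) {n : ℕ} (α β : Fin n → A') (t : G ⊗[F] A') : Prop :=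
  ∃ g g' : Fin n → G, (∀ j, g j ∈ Gw F e 0 0) ∧ (∀ j, g' j ∈ Gw F e 0 1) ∧
    t - (∑ j, g j ⊗ₜ[F] α j + ∑ j, g' j ⊗ₜ[F] β j) ∈ SqT F A' G

theorem Env_gd (m : ℕ) (hA : IsSuper F A) {n : ℕ} {α β : Fin n → A'}
    (h0 : ∀ a ∈ A 0, ∃ (c : Fin n → F), a - ∑ j, c j • α j ∈ Sq F A')
    (h1 : ∀ a ∈ A 1, ∃ (c : Fin n → F), a - ∑ j, c j • β j ∈ Sq F A')
    (t : G ⊗[F] A') (ht : t ∈ Env e m A hA) : Gd e α β t := by
  have ht' : t ∈ Submodule.span F {t : G ⊗[F] A' | ∃ p, ∃ g ∈ Gw F e m p, ∃ a ∈ A p,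
    g ⊗ₜ[F] a = t} := ht
  clear ht
  induction ht' using Submodule.span_induction with
  | zero =>
    exact ⟨0, 0, fun _ => Submodule.zero_mem _, fun _ => Submodule.zero_mem _,
      by simp⟩
  | add p q hp hq h2 h3 =>
    obtain ⟨g, g', hg, hg', h⟩ := h2
    obtain ⟨k, k', hk, hk', h'⟩ := h3
    refine ⟨g + k, g' + k', fun j => Submodule.add_mem _ (hg j) (hk j),
      fun j => Submodule.add_mem _ (hg' j) (hk' j), ?_⟩
    have := Submodule.add_mem _ h h'
    convert this using 1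
    simp only [Pi.add_apply, TensorProduct.add_tmul, Finset.sum_add_distrib]
    abel
  | smul c p hp h2 =>
    obtain ⟨g, g', hg, hg', h⟩ := h2
    refine ⟨c • g, c • g', fun j => Submodule.smul_mem _ _ (hg j),
      fun j => Submodule.smul_mem _ _ (hg' j), ?_⟩
    have := Submodule.smul_mem _ c h
    convert this using 1
    simp only [Pi.smul_apply, TensorProduct.smul_tmul', smul_add, smul_sub, Finset.smul_sum]
  | mem y hy =>
    obtain ⟨p, g, hg, a, ha, rfl⟩ := hy
    have key : ∀ (c : Fin n → F) (α : Fin n → A'), a - ∑ j, c j • α j ∈ Sq F A' →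
        g ⊗ₜ[F] a - ∑ j, (c j • g) ⊗ₜ[F] α j ∈ SqT F A' G := by
      intro c α hc
      have h1 : g ⊗ₜ[F] a - ∑ j, (c j • g) ⊗ₜ[F] α j = g ⊗ₜ[F] (a - ∑ j, c j • α j) := by
        rw [TensorProduct.tmul_sub, TensorProduct.tmul_sum]
        congr 1
        refine Finset.sum_congr rfl fun j _ => ?_
        rw [TensorProduct.tmul_smul, TensorProduct.smul_tmul']
      rw [h1]
      exact Submodule.subset_span ⟨_, _, hc, rfl⟩
    fin_cases p
    · obtain ⟨c, hc⟩ := h0 a ha
      refine ⟨fun j => c j • g, 0, fun j => Submodule.smul_mem _ _ (Gw_mono hg),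
        fun _ => Submodule.zero_mem _, ?_⟩
      have := key c α hc
      simpa using this
    · obtain ⟨c, hc⟩ := h1 a ha
      refine ⟨0, fun j => c j • g, fun _ => Submodule.zero_mem _,
        fun j => Submodule.smul_mem _ _ (Gw_mono hg), ?_⟩
      have := key c β hc
      simpa using this

/-! ### the filtration -/

/-- the filtration by the number of odd factors -/
noncomputable def Fl {J : Type} (γ : J → G) (A' : Type u) [NonUnitalNonAssocRing A']
    [Module F A'] (r : ℕ) : Submodule F (G ⊗[F] A') :=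
  Submodule.span F {t | ∃ (u : G) (l : List J) (a : A'), l.length = r ∧ a ∈ G3 F A' ∧
    (u * (l.map γ).prod) ⊗ₜ[F] a = t}

theorem Fl_top {J : Type} (γ : J → G) {t : G ⊗[F] A'} (ht : t ∈ GT F A' G) : t ∈ Fl γ A' 0 := by
  unfold GT at ht
  induction ht using Submodule.span_induction with
  | zero => exact Submodule.zero_mem _
  | add x y _ _ hx hy => exact Submodule.add_mem _ hx hy
  | smul c x _ hx => exact Submodule.smul_mem _ _ hx
  | mem y hy =>
    obtain ⟨k, a, ha, rfl⟩ := hy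
    exact Submodule.subset_span ⟨k, [], a, rfl, ha, by simp⟩

theorem Fl_GT {J : Type} (γ : J → G) {r : ℕ} {t : G ⊗[F] A'} (ht : t ∈ Fl γ A' r) :
    t ∈ GT F A' G := by
  unfold Fl at ht
  induction ht using Submodule.span_induction with
  | zero => exact Submodule.zero_mem _
  | add x y _ _ hx hy => exact Submodule.add_mem _ hx hy
  | smul c x _ hx => exact Submodule.smul_mem _ _ hx
  | mem y hy =>
    obtain ⟨k, l, a, _, ha, rfl⟩ := hy
    exact Submodule.subset_span ⟨_, a, ha, rfl⟩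

theorem Fl_bot [CharZero F] (he : IsGrassmann F e) {J : Type} [Fintype J] (γ : J → G)
    (hγ : ∀ j, γ j ∈ Gw F e 0 1) {r : ℕ} (hr : Fintype.card J < r) {t : G ⊗[F] A'}
    (ht : t ∈ Fl γ A' r) : t = 0 := by
  unfold Fl at ht
  induction ht using Submodule.span_induction with
  | zero => rfl
  | add x y _ _ hx hy => rw [hx, hy, add_zero]
  | smul c x _ hx => rw [hx, smul_zero]
  | mem y hy =>
    obtain ⟨u, l, a, hl, _, rfl⟩ := hy
    rw [odd_prod he γ hγ l, mul_zero, TensorProduct.zero_tmul]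
    intro hnd
    have := hnd.length_le_card
    omega

theorem prod_swap (he : IsGrassmann F e) {J : Type} (γ : J → G) (hγ : ∀ j, γ j ∈ Gw F e 0 1)
    {m : ℕ} {p : ZMod 2} {k : G} (hk : k ∈ Gw F e m p) (l : List J) :
    ∃ ε : F, (l.map γ).prod * k = ε • (k * (l.map γ).prod) := by
  have hk' := Gw_mono hk
  fin_cases p
  · exact ⟨1, by rw [one_smul]; exact (Gw0_central he hk' _).symm⟩
  · induction l with
    | nil => exact ⟨1, by simp⟩
    | cons j l ih =>
      obtain ⟨ε, hε⟩ := ih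
      refine ⟨-ε, ?_⟩
      rw [List.map_cons, List.prod_cons, mul_assoc, hε, mul_smul_comm, ← mul_assoc,
        Gw1_anti he (hγ j) hk', neg_mul, smul_neg, neg_smul, mul_assoc]

theorem Fl_even (he : IsGrassmann F e) {J : Type} (γ : J → G) (hγ : ∀ j, γ j ∈ Gw F e 0 1)
    {g : G} (hg : g ∈ Gw F e 0 0) (α : A') {r : ℕ} {m : ℕ}
    {t : G ⊗[F] A'} (ht : t ∈ Fl γ A' r) {w : G ⊗[F] A'} (hw : w ∈ EnvSp F e m A) :
    t * ((g ⊗ₜ[F] α) * w) ∈ Fl γ A' r := by
  unfold Fl at ht
  induction ht using Submodule.span_induction with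
  | zero => rw [zero_mul]; exact Submodule.zero_mem _
  | add x y _ _ hx hy => rw [add_mul]; exact Submodule.add_mem _ hx hy
  | smul c x _ hx => rw [smul_mul_assoc]; exact Submodule.smul_mem _ _ hx
  | mem y hy =>
    obtain ⟨u, l, a, hl, ha, rfl⟩ := hy
    unfold EnvSp at hw
    induction hw using Submodule.span_induction with
    | zero => rw [mul_zero, mul_zero]; exact Submodule.zero_mem _
    | add x y _ _ hx hy => rw [mul_add, mul_add]; exact Submodule.add_mem _ hx hy
    | smul c x _ hx => rw [mul_smul_comm, mul_smul_comm]; exact Submodule.smul_mem _ _ hx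
    | mem z hz =>
      obtain ⟨p, k, hk, b, hb, rfl⟩ := hz
      rw [Algebra.TensorProduct.tmul_mul_tmul, Algebra.TensorProduct.tmul_mul_tmul]
      obtain ⟨ε, hε⟩ := prod_swap he γ hγ hk l
      have e1 : u * (l.map γ).prod * (g * k) = ε • ((u * g * k) * (l.map γ).prod) := by
        rw [← mul_assoc, mul_assoc u, ← Gw0_central he hg, mul_assoc, mul_assoc, hε,
          mul_smul_comm, mul_smul_comm, mul_assoc, mul_assoc]
      rw [e1, ← TensorProduct.smul_tmul']
      refine Submodule.smul_mem _ _ (Submodule.subset_span ⟨u * g * k, l, a * (α * b), hl,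
        G3_mul ha _, rfl⟩)

theorem Fl_odd (he : IsGrassmann F e) {J : Type} (γ : J → G) (hγ : ∀ j, γ j ∈ Gw F e 0 1)
    (j : J) (β : A') {r : ℕ} {m : ℕ}
    {t : G ⊗[F] A'} (ht : t ∈ Fl γ A' r) {w : G ⊗[F] A'} (hw : w ∈ EnvSp F e m A) :
    t * ((γ j ⊗ₜ[F] β) * w) ∈ Fl γ A' (r + 1) := by
  unfold Fl at ht
  induction ht using Submodule.span_induction with
  | zero => rw [zero_mul]; exact Submodule.zero_mem _
  | add x y _ _ hx hy => rw [add_mul]; exact Submodule.add_mem _ hx hy
  | smul c x _ hx => rw [smul_mul_assoc]; exact Submodule.smul_mem _ _ hx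
  | mem y hy =>
    obtain ⟨u, l, a, hl, ha, rfl⟩ := hy
    unfold EnvSp at hw
    induction hw using Submodule.span_induction with
    | zero => rw [mul_zero, mul_zero]; exact Submodule.zero_mem _
    | add x y _ _ hx hy => rw [mul_add, mul_add]; exact Submodule.add_mem _ hx hy
    | smul c x _ hx => rw [mul_smul_comm, mul_smul_comm]; exact Submodule.smul_mem _ _ hx
    | mem z hz =>
      obtain ⟨p, k, hk, b, hb, rfl⟩ := hz
      rw [Algebra.TensorProduct.tmul_mul_tmul, Algebra.TensorProduct.tmul_mul_tmul]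
      obtain ⟨ε, hε⟩ := prod_swap he γ hγ hk (l ++ [j])
      have e1 : u * (l.map γ).prod * (γ j * k) = ε • ((u * k) * ((l ++ [j]).map γ).prod) := by
        have e2 : u * (l.map γ).prod * (γ j * k) = u * (((l ++ [j]).map γ).prod * k) := by
          simp [mul_assoc]
        rw [e2, hε, mul_smul_comm, mul_assoc]
      rw [e1, ← TensorProduct.smul_tmul']
      refine Submodule.smul_mem _ _ (Submodule.subset_span ⟨u * k, l ++ [j], a * (β * b),
        by simp [hl], G3_mul ha _, rfl⟩)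

theorem Fl_le {J : Type} (γ : J → G) (r : ℕ) :
    (Fl γ A' (r + 1) : Submodule F (G ⊗[F] A')) ≤ Fl γ A' r := by
  unfold Fl
  rw [Submodule.span_le]
  rintro _ ⟨u, l, a, hl, ha, rfl⟩
  rcases l with _ | ⟨j, l⟩
  · simp at hl
  · apply Submodule.subset_span
    refine ⟨u * γ j, l, a, by simpa using hl, ha, ?_⟩
    simp [mul_assoc]

end Pool.Agent.R685
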