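import Pool.Agent.R685.LieSup2

set_option autoImplicit false
set_option linter.unusedSectionVars false

namespace Pool.Agent.R685

open Pool.Agent.H163R3 TensorProduct

universe u

variable {F : Type u} [Field F]

variable {A' : Type u} [NonUnitalNonAssocRing A'] [Module F A'] [IsScalarTower F A' A']
  [SMulCommClass F A' A'] {A : ZMod 2 → Submodule F A'}
  {G : Type u} [Ring G] [Algebra F G] {e : ℕ → G}

theorem gd_kill [CharZero F] (he : IsGrassmann F e) {n m : ℕ} {α β : Fin n → A'}
    (hz : ∀ a b c a' b' c' : A', ((a * b) * c) * ((a' * b') * c') = 0)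
    (t w : Fin (n + 1) → G ⊗[F] A') (ht : ∀ i, Gd e α β (t i))
    (hw : ∀ i, w i ∈ EnvSp F e m A) (y : G ⊗[F] A') (hy : y ∈ GT F A' G) :
    ((dt (n + 1) fun k i => Ro (F := F) (t k * w i)) ^ ((n + 1) * n + 1)) y = 0 := by
  choose g g' hg hg' hgt using ht
  set γ : Fin (n + 1) × Fin n → G := fun p => g' p.1 p.2 with hγ
  have hγ1 : ∀ p, γ p ∈ Gw F e 0 1 := fun p => hg' p.1 p.2
  set P : Fin (n + 1) → Fin (n + 1) → Module.End F (G ⊗[F] A') :=
    fun k i => Ro (F := F) ((∑ j, g k j ⊗ₜ[F] α j) * w i) with hP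
  have hPZ : ∀ k i, P k i = ∑ j, LinearMap.rTensor A' (LinearMap.mulRight F (g k j))
      * Ro (F := F) (((1 : G) ⊗ₜ[F] α j) * w i) := by
    intro k i
    have key : ∀ w : G ⊗[F] A', Ro (F := F) ((∑ j, g k j ⊗ₜ[F] α j) * w)
        = ∑ j, LinearMap.rTensor A' (LinearMap.mulRight F (g k j))
      * Ro (F := F) (((1 : G) ⊗ₜ[F] α j) * w) := by
      intro w
      apply TensorProduct.ext'
      intro u a
      rw [LinearMap.sum_apply, Ro_apply, Finset.sum_mul, Finset.mul_sum]
      refine Finset.sum_congr rfl fun j _ => ?_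
      rw [Module.End.mul_apply, Ro_apply]
      induction w using TensorProduct.induction_on with
      | zero => simp
      | add x y hx hy => rw [mul_add, mul_add, hx, hy, mul_add, mul_add, map_add]
      | tmul v b =>
        simp only [Algebra.TensorProduct.tmul_mul_tmul, LinearMap.rTensor_tmul,
          LinearMap.mulRight_apply, one_mul]
        rw [mul_assoc, Gw0_central he (hg k j)]
    exact key (w i)
  have hP0 : dt (n + 1) P = 0 := by
    have e : P = fun k i => ∑ j, LinearMap.rTensor A' (LinearMap.mulRight F (g k j))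
      * Ro (F := F) (((1 : G) ⊗ₜ[F] α j) * w i) := funext fun k => funext fun i => hPZ k i
    rw [e]
    refine dt_zero (F := F) (Nat.lt_succ_self n)
      (fun k j => LinearMap.rTensor A' (LinearMap.mulRight F (g k j)))
      (fun j i => Ro (F := F) (((1 : G) ⊗ₜ[F] α j) * w i)) ?_ ?_
    · intro i j k l
      apply TensorProduct.ext'
      intro u a
      simp only [Module.End.mul_apply,
        LinearMap.rTensor_tmul, LinearMap.mulRight_apply, mul_assoc]
      rw [Gw0_central he (hg i j)]
    · intro i j k l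
      have key : ∀ w : G ⊗[F] A', LinearMap.rTensor A' (LinearMap.mulRight F (g i j))
          * Ro (F := F) w = Ro (F := F) w
          * LinearMap.rTensor A' (LinearMap.mulRight F (g i j)) := by
        intro w
        apply TensorProduct.ext'
        intro u a
        simp only [Module.End.mul_apply, Ro_apply]
        induction w using TensorProduct.induction_on with
        | zero => simp
        | add x y hx hy => rw [mul_add, map_add, hx, hy, mul_add]
        | tmul v b =>
          simp only [Algebra.TensorProduct.tmul_mul_tmul, LinearMap.rTensor_tmul,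
            LinearMap.mulRight_apply]
          rw [mul_assoc, mul_assoc, Gw0_central he (hg i j)]
      exact key _
  have hPr : ∀ r i j, ∀ s ∈ Fl γ A' r, P i j s ∈ Fl γ A' r := by
    intro r i j s hs
    simp only [hP, Ro_apply, Finset.sum_mul, Finset.mul_sum]
    exact Submodule.sum_mem _ fun l _ => Fl_even he γ hγ1 (hg i l) _ hs (hw j)
  have hD : ∀ r i j, ∀ s ∈ Fl γ A' r,
      (Ro (F := F) (t i * w j)) s - (P i j) s ∈ Fl γ A' (r + 1) := by
    intro r i j s hs
    have e : (Ro (F := F) (t i * w j)) s - (P i j) s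
        = s * ((∑ l, g' i l ⊗ₜ[F] β l) * w j) := by
      have h1 := GT_zero hz (Fl_GT γ hs) (hgt i) (w j)
      simp only [hP, Ro_apply]
      rw [sub_mul, mul_sub, sub_eq_zero] at h1
      rw [h1, add_mul, mul_add, add_sub_cancel_left]
    rw [e, Finset.sum_mul, Finset.mul_sum]
    exact Submodule.sum_mem _ fun l _ => Fl_odd he γ hγ1 (i, l) (β l) hs (hw j)
  have hU : ∀ r i j, ∀ s ∈ Fl γ A' r, (Ro (F := F) (t i * w j)) s ∈ Fl γ A' r := by
    intro r i j s hs
    have h1 := Submodule.add_mem _ (Fl_le γ r (hD r i j s hs)) (hPr r i j s hs)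
    rwa [sub_add_cancel] at h1
  have h1 := pow_shift' (Fl γ A') (U := dt (n + 1) fun k i => Ro (F := F) (t k * w i))
    (fun r s hs => dt_shift (Fl γ A') (n + 1) _ P hU hPr hD hP0 r s hs)
    ((n + 1) * n + 1) 0 y (Fl_top γ hy)
  apply Fl_bot he γ hγ1 _ h1
  rw [Fintype.card_prod, Fintype.card_fin, Fintype.card_fin]
  omega

/-- the inclusion of the envelope -/
noncomputable def inc (m : ℕ) (hA : IsSuper F A) : Env e m A hA →ₙₐ[F] G ⊗[F] A' where
  toFun t := t.1
  map_smul' _ _ := rfl
  map_zero' := rfl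
  map_add' _ _ := rfl
  map_mul' _ _ := rfl

theorem GT_triple (a b c : G ⊗[F] A') : (a * b) * c ∈ GT F A' G := by
  induction a using TensorProduct.induction_on with
  | zero => rw [zero_mul, zero_mul]; exact Submodule.zero_mem _
  | add x y hx hy => rw [add_mul, add_mul]; exact Submodule.add_mem _ hx hy
  | tmul u a =>
  induction b using TensorProduct.induction_on with
  | zero => rw [mul_zero, zero_mul]; exact Submodule.zero_mem _
  | add x y hx hy => rw [mul_add, add_mul]; exact Submodule.add_mem _ hx hy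
  | tmul v b =>
  induction c using TensorProduct.induction_on with
  | zero => rw [mul_zero]; exact Submodule.zero_mem _
  | add x y hx hy => rw [mul_add]; exact Submodule.add_mem _ hx hy
  | tmul w c =>
    rw [Algebra.TensorProduct.tmul_mul_tmul, Algebra.TensorProduct.tmul_mul_tmul]
    exact Submodule.subset_span ⟨_, _, Submodule.subset_span ⟨a, b, c, rfl⟩, rfl⟩

theorem Env_tq [CharZero F] (he : IsGrassmann F e) (m : ℕ) (hA : IsSuper F A)
    (h : InVar F (V1 F) (Env e m A hA))
    {s : Finset A'} (hs : NonUnitalAlgebra.adjoin F (s : Set A') = ⊤) :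
    Sat F (Env e m A hA) (tq F (s.card + 1) ((s.card + 1) * s.card + 1)) := by
  intro φ
  have hg := gen_dec hs
  choose α hα β hβ hv using fun j : Fin s.card => homSum hA (s.equivFin.symm j : A')
  have hgood := Env_gd (e := e) m hA (fun a ha => gen_ev hA hα hβ hv hg ha)
    (fun a ha => gen_od hA hα hβ hv hg ha)
  apply Subtype.val_injective
  set φ' : Fr F →ₙₐ[F] G ⊗[F] A' := (inc m hA).comp φ with hφ'
  have h1 : φ' (tq F (s.card + 1) ((s.card + 1) * s.card + 1)) = 0 := by
    rw [tq_eval]
    exact gd_kill he (six_zero he m hA h)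
      (fun i => φ' (X F (2 * (i : ℕ) + 3))) (fun i => φ' (X F (2 * (i : ℕ) + 4)))
      (fun i => hgood _ (φ _).2) (fun i => (φ _).2) _ (GT_triple _ _ _)
  exact h1

theorem Env_sat' (m : ℕ) (hA : IsSuper F A) {f : Fr F} (hf : f ∈ EnvId F e m A) :
    Sat F (Env e m A hA) f := by
  intro φ
  apply Subtype.val_injective
  exact hf ((inc m hA).comp φ) (fun i => (φ (X F i)).2)

theorem sat_Env' (m : ℕ) (hA : IsSuper F A) {f : Fr F} (hf : Sat F (Env e m A hA) f) :
    f ∈ EnvId F e m A := by
  intro φ hφ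
  set ψ : Fr F →ₙₐ[F] Env e m A hA :=
    FreeNonUnitalNonAssocAlgebra.lift F (fun i => ⟨φ (X F i), hφ i⟩) with hψ
  have h1 : (inc m hA).comp ψ = φ := by
    apply FreeNonUnitalNonAssocAlgebra.hom_ext
    intro i
    show (ψ (X F i)).1 = φ (X F i)
    have : ψ (X F i) = ⟨φ (X F i), hφ i⟩ := by simp [hψ, X]
    rw [this]
  rw [← h1]
  show (ψ f).1 = 0
  rw [hf ψ]
  rfl

/-! ### the model: the Heisenberg algebra acting on polynomials -/

/-- polynomials in infinitely many variables -/
abbrev Po (F : Type u) [Field F] : Type u := MvPolynomial ℕ F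

/-- the underlying space: `y`-part, `w`-part, central part, module part -/
def Hm (F : Type u) [Field F] : Type u := (ℕ →₀ F) × (ℕ →₀ F) × F × Po F

noncomputable instance : AddCommGroup (Hm F) :=
  inferInstanceAs (AddCommGroup ((ℕ →₀ F) × (ℕ →₀ F) × F × Po F))
noncomputable instance : Module F (Hm F) :=
  inferInstanceAs (Module F ((ℕ →₀ F) × (ℕ →₀ F) × F × Po F))

/-- first component -/
noncomputable def hy (F : Type u) [Field F] : Hm F →ₗ[F] (ℕ →₀ F) :=
  LinearMap.fst F (ℕ →₀ F) ((ℕ →₀ F) × F × Po F)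
/-- second component -/
noncomputable def hw (F : Type u) [Field F] : Hm F →ₗ[F] (ℕ →₀ F) :=
  LinearMap.fst F (ℕ →₀ F) (F × Po F) ∘ₗ LinearMap.snd F (ℕ →₀ F) ((ℕ →₀ F) × F × Po F)
/-- third component -/
noncomputable def hc (F : Type u) [Field F] : Hm F →ₗ[F] F :=
  LinearMap.fst F F (Po F) ∘ₗ LinearMap.snd F (ℕ →₀ F) (F × Po F) ∘ₗ
    LinearMap.snd F (ℕ →₀ F) ((ℕ →₀ F) × F × Po F)
/-- fourth component -/
noncomputable def hm (F : Type u) [Field F] : Hm F →ₗ[F] Po F :=
  LinearMap.snd F F (Po F) ∘ₗ LinearMap.snd F (ℕ →₀ F) (F × Po F) ∘ₗ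
    LinearMap.snd F (ℕ →₀ F) ((ℕ →₀ F) × F × Po F)

/-- quadruples -/
noncomputable def hq (a b : ℕ →₀ F) (c : F) (m : Po F) : Hm F := (a, b, c, m)

@[simp] theorem hy_hq (a b : ℕ →₀ F) (c : F) (m : Po F) : hy F (hq a b c m) = a := rfl
@[simp] theorem hw_hq (a b : ℕ →₀ F) (c : F) (m : Po F) : hw F (hq a b c m) = b := rfl
@[simp] theorem hc_hq (a b : ℕ →₀ F) (c : F) (m : Po F) : hc F (hq a b c m) = c := rfl
@[simp] theorem hm_hq (a b : ℕ →₀ F) (c : F) (m : Po F) : hm F (hq a b c m) = m := rfl

theorem Hm_ext {p q : Hm F} (h1 : hy F p = hy F q) (h2 : hw F p = hw F q)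
    (h3 : hc F p = hc F q) (h4 : hm F p = hm F q) : p = q :=
  Prod.ext h1 (Prod.ext h2 (Prod.ext h3 h4))

/-- the derivations -/
noncomputable def dY (F : Type u) [Field F] : (ℕ →₀ F) →ₗ[F] Module.End F (Po F) :=
  Finsupp.linearCombination F (fun i => (MvPolynomial.pderiv (R := F) i).toLinearMap)

/-- the linear forms -/
noncomputable def lW (F : Type u) [Field F] : (ℕ →₀ F) →ₗ[F] Po F :=
  Finsupp.linearCombination F (fun i => (MvPolynomial.X i : Po F))

/-- the pairing -/
noncomputable def bl (F : Type u) [Field F] : (ℕ →₀ F) →ₗ[F] (ℕ →₀ F) →ₗ[F] F :=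
  Finsupp.linearCombination F (fun i => (Finsupp.lapply i : (ℕ →₀ F) →ₗ[F] F))

theorem dY_mul (a : ℕ →₀ F) (p q : Po F) : dY F a (p * q) = dY F a p * q + p * dY F a q := by
  induction a using Finsupp.induction_linear with
  | zero => simp
  | add a b h1 h2 =>
    simp only [map_add, LinearMap.add_apply] at h1 h2 ⊢
    rw [h1, h2]; ring
  | single i r =>
    simp only [dY, Finsupp.linearCombination_single, LinearMap.smul_apply]
    show r • (MvPolynomial.pderiv i) (p * q) = _
    rw [Derivation.leibniz]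
    simp only [smul_eq_mul, smul_add]
    show _ = (r • (MvPolynomial.pderiv i) p) * q + p * (r • (MvPolynomial.pderiv i) q)
    rw [smul_mul_assoc, mul_smul_comm]
    ring

theorem dY_lW (a b : ℕ →₀ F) : dY F a (lW F b) = MvPolynomial.C (bl F a b) := by
  induction a using Finsupp.induction_linear with
  | zero => simp
  | add a b h1 h2 =>
    simp only [map_add, LinearMap.add_apply] at h1 h2 ⊢
    rw [h1, h2]
  | single i r =>
    induction b using Finsupp.induction_linear with
    | zero => simp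
    | add a b h1 h2 =>
      simp only [map_add] at h1 h2 ⊢
      rw [h1, h2]
    | single j s =>
      simp only [dY, lW, bl, Finsupp.linearCombination_single, LinearMap.smul_apply, map_smul,
        Finsupp.lapply_apply]
      show s • (r • (MvPolynomial.pderiv i) (MvPolynomial.X j)) = _
      rw [MvPolynomial.pderiv_X, Finsupp.single_apply]
      by_cases h : j = i
      · subst h
        simp [MvPolynomial.smul_eq_C_mul, mul_comm]
      · simp [h]

theorem dY_comm (a b : ℕ →₀ F) (p : Po F) : dY F a (dY F b p) = dY F b (dY F a p) := by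
  induction a using Finsupp.induction_linear with
  | zero => simp
  | add a b h1 h2 =>
    simp only [map_add, LinearMap.add_apply] at h1 h2 ⊢
    rw [h1, h2]
  | single i r =>
    induction b using Finsupp.induction_linear with
    | zero => simp
    | add a b h1 h2 =>
      simp only [map_add, LinearMap.add_apply] at h1 h2 ⊢
      rw [h1, h2]
    | single j s =>
      simp only [dY, Finsupp.linearCombination_single, LinearMap.smul_apply, map_smul]
      rw [smul_comm]
      congr 2
      show (MvPolynomial.pderiv i) ((MvPolynomial.pderiv j) p)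
        = (MvPolynomial.pderiv j) ((MvPolynomial.pderiv i) p)
      induction p using MvPolynomial.induction_on with
      | C r => simp
      | add p q h1 h2 => simp only [map_add, h1, h2]
      | mul_X p k h =>
        simp only [Derivation.leibniz, map_add, smul_eq_mul, h, MvPolynomial.pderiv_X]
        simp only [Pi.single_apply]
        split_ifs <;> simp <;> ring

/-- the action of `y`-part, `w`-part, central part on polynomials -/
noncomputable def ac (p : Hm F) (f : Po F) : Po F :=
  dY F (hy F p) f + lW F (hw F p) * f + hc F p • f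

noncomputable instance : Mul (Hm F) := ⟨fun p q => hq 0 0
  (bl F (hy F q) (hw F p) - bl F (hy F p) (hw F q))
  (ac q (hm F p) - ac p (hm F q))⟩

theorem Hm_mul (p q : Hm F) : p * q = hq 0 0
  (bl F (hy F q) (hw F p) - bl F (hy F p) (hw F q))
  (ac q (hm F p) - ac p (hm F q)) := rfl

noncomputable instance : NonUnitalNonAssocRing (Hm F) where
  left_distrib p q r := by
    apply Hm_ext
    · simp [Hm_mul]
    · simp [Hm_mul]
    · simp only [Hm_mul, hc_hq, map_add, LinearMap.add_apply]; ring
    · simp only [Hm_mul, hm_hq, map_add, LinearMap.add_apply, ac, add_smul, smul_add]; ring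
  right_distrib p q r := by
    apply Hm_ext
    · simp [Hm_mul]
    · simp [Hm_mul]
    · simp only [Hm_mul, hc_hq, map_add, LinearMap.add_apply]; ring
    · simp only [Hm_mul, hm_hq, map_add, LinearMap.add_apply, ac, add_smul, smul_add]; ring
  zero_mul p := by
    apply Hm_ext <;> simp [Hm_mul, ac]
  mul_zero p := by
    apply Hm_ext <;> simp [Hm_mul, ac]

instance : IsScalarTower F (Hm F) (Hm F) := ⟨fun c p q => by
  show (c • p) * q = c • (p * q)
  apply Hm_ext
  · simp [Hm_mul]
  · simp [Hm_mul]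
  · simp only [Hm_mul, hc_hq, map_smul, LinearMap.smul_apply, smul_eq_mul]; ring
  · simp only [Hm_mul, hm_hq, map_smul, LinearMap.smul_apply, ac, smul_eq_mul]
    simp only [MvPolynomial.smul_eq_C_mul, map_mul]; ring⟩

instance : SMulCommClass F (Hm F) (Hm F) := ⟨fun c p q => by
  show c • (p * q) = p * (c • q)
  apply Hm_ext
  · simp [Hm_mul]
  · simp [Hm_mul]
  · simp only [Hm_mul, hc_hq, map_smul, LinearMap.smul_apply, smul_eq_mul]; ring
  · simp only [Hm_mul, hm_hq, map_smul, LinearMap.smul_apply, ac, smul_eq_mul]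
    simp only [MvPolynomial.smul_eq_C_mul, map_mul]; ring⟩

theorem ac_comm (p q : Hm F) (f : Po F) : ac q (ac p f) - ac p (ac q f)
    = (bl F (hy F q) (hw F p) - bl F (hy F p) (hw F q)) • f := by
  unfold ac
  simp only [map_add, dY_mul, dY_lW, map_smul, sub_smul]
  rw [dY_comm (hy F q) (hy F p)]
  simp only [MvPolynomial.smul_eq_C_mul]
  ring

theorem ac_sub (p : Hm F) (f g : Po F) : ac p (f - g) = ac p f - ac p g := by
  unfold ac
  simp only [map_sub, mul_sub, smul_sub]
  ring

theorem ac_mul (p q : Hm F) (f : Po F) : ac (p * q) f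
    = (bl F (hy F q) (hw F p) - bl F (hy F p) (hw F q)) • f := by
  unfold ac
  simp [Hm_mul]

theorem Hm_var : InVar F (V1 F) (Hm F) := by
  intro f hf φ
  unfold V1 at hf
  rcases hf with hf | hf | hf
  · rw [hf, map_mul]
    apply Hm_ext <;> simp [Hm_mul]
  · rw [hf]
    simp only [map_add, map_mul]
    generalize φ (X F 0) = x
    generalize φ (X F 1) = y
    generalize φ (X F 2) = z
    apply Hm_ext
    · simp [Hm_mul]
    · simp [Hm_mul]
    · simp [Hm_mul]
    · rw [map_add, map_add, Hm_mul (x * y) z, Hm_mul (y * z) x, Hm_mul (z * x) y]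
      simp only [hm_hq, map_zero]
      rw [ac_mul, ac_mul, ac_mul, Hm_mul x y, Hm_mul y z, Hm_mul z x]
      simp only [hm_hq, ac_sub]
      have h1 := ac_comm y z (hm F x)
      have h2 := ac_comm z x (hm F y)
      have h3 := ac_comm x y (hm F z)
      rw [← h1, ← h2, ← h3]
      ring
  · rw [Set.mem_singleton_iff] at hf
    rw [hf]
    simp only [map_mul]
    apply Hm_ext <;> simp [Hm_mul, ac]

/-- determinants of scalar operators -/
theorem pr_scal {V : Type u} [AddCommGroup V] [Module F V] (s : V) : ∀ (h : ℕ)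
    (U : Fin h → Module.End F V) (c : Fin h → F), (∀ i, U i s = c i • s) →
    pr h U s = (∏ i, c i) • s
  | 0, U, c, _ => by simp [pr]
  | h + 1, U, c, H => by
    rw [pr_succ, Module.End.mul_apply, pr_scal s h _ (fun i => c i.succ) (fun i => H i.succ),
      map_smul, H 0, Fin.prod_univ_succ, smul_smul, mul_comm]

theorem dt_scal {V : Type u} [AddCommGroup V] [Module F V] (s : V) (h : ℕ)
    (U : Fin h → Fin h → Module.End F V) (M : Matrix (Fin h) (Fin h) F)
    (H : ∀ i j, U i j s = M i j • s) : dt h U s = M.det • s := by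
  unfold dt
  rw [LinearMap.sum_apply, Matrix.det_apply, Finset.sum_smul]
  refine Finset.sum_congr rfl fun σ _ => ?_
  rw [LinearMap.smul_apply, pr_scal s h _ (fun i => M (σ i) i) (fun i => H _ _), smul_assoc]

theorem pow_scal {V : Type u} [AddCommGroup V] [Module F V] (s : V)
    (U : Module.End F V) (c : F) (H : U s = c • s) : ∀ C, (U ^ C) s = (c ^ C) • s
  | 0 => by simp
  | C + 1 => by
    rw [pow_succ', Module.End.mul_apply, pow_scal s U c H C, map_smul, H, smul_smul, pow_succ]

/-- the substitution -/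
noncomputable def sb (F : Type u) [Field F] (i : ℕ) : Hm F :=
  if i = 0 then hq 0 0 0 1 else if i = 1 then hq 0 (Finsupp.single 0 1) 0 0
  else if i = 2 then hq (Finsupp.single 0 1) 0 0 0
  else if i % 2 = 1 then hq (Finsupp.single ((i - 3) / 2) 1) 0 0 0
  else hq 0 (Finsupp.single ((i - 4) / 2) 1) 0 0

theorem sb_y (k : ℕ) : sb F (2 * k + 3) = hq (Finsupp.single k 1) 0 0 0 := by
  unfold sb
  have h1 : ¬ (2 * k + 3 = 0) := by omega
  have h2 : ¬ (2 * k + 3 = 1) := by omega
  have h3 : ¬ (2 * k + 3 = 2) := by omega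
  have h4 : (2 * k + 3) % 2 = 1 := by omega
  have h5 : (2 * k + 3 - 3) / 2 = k := by omega
  rw [if_neg h1, if_neg h2, if_neg h3, if_pos h4, h5]

theorem sb_w (k : ℕ) : sb F (2 * k + 4) = hq 0 (Finsupp.single k 1) 0 0 := by
  unfold sb
  have h1 : ¬ (2 * k + 4 = 0) := by omega
  have h2 : ¬ (2 * k + 4 = 1) := by omega
  have h3 : ¬ (2 * k + 4 = 2) := by omega
  have h4 : ¬ (2 * k + 4) % 2 = 1 := by omega
  have h5 : (2 * k + 4 - 4) / 2 = k := by omega
  rw [if_neg h1, if_neg h2, if_neg h3, if_neg h4, h5]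

theorem Hm_tq (h C : ℕ) : ¬ Sat F (Hm F) (tq F h C) := by
  intro hs
  set φ : Fr F →ₙₐ[F] Hm F := FreeNonUnitalNonAssocAlgebra.lift F (sb F) with hφ
  have hX : ∀ i, φ (X F i) = sb F i := by intro i; simp [hφ, X]
  have h1 := hs φ
  rw [tq_eval] at h1
  simp only [hX] at h1
  have e0 : (sb F 0 * sb F 1) * sb F 2 = hq 0 0 0 1 := by
    have e1 : sb F 0 = hq 0 0 0 1 := by simp [sb]
    have e2 : sb F 1 = hq 0 (Finsupp.single 0 1) 0 0 := by simp [sb]
    have e3 : sb F 2 = hq (Finsupp.single 0 1) 0 0 0 := by simp [sb]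
    rw [e1, e2, e3]
    have e4 : (hq 0 0 0 1 : Hm F) * hq 0 (Finsupp.single 0 1) 0 0
        = hq 0 0 0 (MvPolynomial.X 0) := by
      apply Hm_ext
      · simp [Hm_mul]
      · simp [Hm_mul]
      · simp [Hm_mul]
      · simp [Hm_mul, ac, lW]
    rw [e4]
    apply Hm_ext
    · simp [Hm_mul]
    · simp [Hm_mul]
    · simp [Hm_mul]
    · simp [Hm_mul, ac, dY]
  rw [e0] at h1
  have h2 := dt_scal (F := F) (hq 0 0 0 1 : Hm F) h
    (fun k i : Fin h => Ro (F := F) (sb F (2 * (k : ℕ) + 3) * sb F (2 * (i : ℕ) + 4)))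
    (-1) (by
      intro i j
      rw [sb_y, sb_w, Ro_apply]
      apply Hm_ext
      · simp [Hm_mul]
      · simp [Hm_mul]
      · simp [Hm_mul]
      · simp only [Hm_mul, hm_hq, hy_hq, hw_hq, hc_hq, ac, map_smul]
        simp [bl, Finsupp.single_apply, Matrix.one_apply, Fin.ext_iff, eq_comm])
  rw [pow_scal _ _ _ h2] at h1
  have h3 := congrArg (hm F) h1
  rw [map_smul, hm_hq, map_zero, smul_eq_zero] at h3
  rcases h3 with h3 | h3
  · have h4 : (-1 : Matrix (Fin h) (Fin h) F).det ≠ 0 := by
      rw [Matrix.det_neg]; simp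
    exact pow_ne_zero _ h4 h3
  · exact one_ne_zero h3

theorem not_finSuperrank [CharZero F] (he : IsGrassmann F e) (m : ℕ) :
    ¬ FinSuperrank F e m (V1 F) := by
  rintro ⟨A', _, _, _, _, A, hA, ⟨s, hs⟩, hV⟩
  have h1 : InVar F (V1 F) (Env e m A hA) := (hV _).mpr (fun f hf => Env_sat' m hA hf)
  exact Hm_tq _ _ ((hV (Hm F)).mp Hm_var _ (sat_Env' m hA (Env_tq he m hA h1 hs)))

end Pool.Agent.R685
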