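import Pool.Agent.H854R3.NE.FinRed

/-! Rings of characteristic zero: linearisation on additive subgroups, density with an invertible
coefficient. -/

set_option autoImplicit false

namespace Pool.Agent.R685

open Pool.Agent.H854R3.NE Polynomial Finset

universe u v

/-- a nonzero polynomial identity gives a multilinear one; version for additive subgroups -/
theorem linearise' {F : Type u} [Field F] {C : Type v} [Ring C] [Algebra F C]
    (S : AddSubgroup C) {n : ℕ}
    (f : FreeAlgebra F (Fin n)) (hf : f ≠ 0)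
    (h : ∀ a : Fin n → C, (∀ i, a i ∈ S) → FreeAlgebra.lift F a f = 0) :
    ∃ (d : ℕ) (c : Equiv.Perm (Fin d) → F), c 1 = 1 ∧
      ∀ a : Fin d → C, (∀ i, a i ∈ S) →
        ∑ τ, c τ • (List.ofFn fun k => a (τ k)).prod = 0 := by
  classical
  set p := (FreeAlgebra.basisFreeMonoid F (Fin n)).repr f with hp
  have hp0 : p ≠ 0 := by
    rw [hp]
    simpa using hf
  obtain ⟨w0, hw0, hmax⟩ := Finset.exists_max_image p.support (fun w => w.toList.length)
    (Finsupp.support_nonempty_iff.2 hp0)
  set d := w0.toList.length with hd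
  set u : Fin d → Fin n := w0.toList.get with hu
  set c : Equiv.Perm (Fin d) → F := fun τ =>
    p (FreeMonoid.ofList (List.ofFn fun k => u (τ k))) with hc
  have hc1 : c 1 = p w0 := by
    simp only [hc, Equiv.Perm.coe_one, id_eq, hu]
    congr 1
    rw [List.ofFn_get]
    simp
  have hc1' : c 1 ≠ 0 := by
    rw [hc1]
    exact Finsupp.mem_support_iff.1 hw0
  have key : ∀ a : Fin d → C, (∀ i, a i ∈ S) →
        ∑ τ, c τ • (List.ofFn fun k => a (τ k)).prod = 0 := by
    intro a ha
    have h1 : ∀ U : Finset (Fin d), FreeAlgebra.lift F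
        (fun i : Fin n => ∑ j ∈ univ.filter (fun j => j ∉ U ∧ u j = i), a j) f = 0 := by
      intro U
      apply h
      intro i
      exact AddSubgroup.sum_mem _ (fun j _ => ha j)
    have h2 : ∑ U : Finset (Fin d), ((-1 : ℤ) ^ U.card) • FreeAlgebra.lift F
        (fun i : Fin n => ∑ j ∈ univ.filter (fun j => j ∉ U ∧ u j = i), a j) f = 0 := by
      apply Finset.sum_eq_zero
      intro U _
      rw [h1 U, smul_zero]
    simp only [Pool.Agent.H67.PI.lift_eq, Finset.smul_sum] at h2
    rw [Finset.sum_comm] at h2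
    have h3 : ∀ w ∈ p.support, (∑ U : Finset (Fin d), ((-1 : ℤ) ^ U.card) •
        p w • (w.toList.map (fun i : Fin n =>
          ∑ j ∈ univ.filter (fun j => j ∉ U ∧ u j = i), a j)).prod) =
        ∑ τ : Equiv.Perm (Fin d), if List.ofFn (fun k => u (τ k)) = w.toList then
          p w • (List.ofFn fun k => a (τ k)).prod else 0 := by
      intro w hw
      have h4 := Pool.Agent.H67.PI.incl_excl (F := F) u a w.toList (hmax w hw)
      have h5 := congrArg (fun x => p w • x) h4
      simp only [Finset.smul_sum, smul_ite, smul_zero] at h5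
      rw [← h5]
      apply Finset.sum_congr rfl
      intro U _
      exact smul_comm _ _ _
    rw [← hp] at h2
    rw [Finset.sum_congr rfl h3, Finset.sum_comm] at h2
    rw [← h2]
    apply Finset.sum_congr rfl
    intro τ _
    by_cases hτ : FreeMonoid.ofList (List.ofFn fun k => u (τ k)) ∈ p.support
    · rw [Finset.sum_eq_single_of_mem _ hτ]
      · rw [if_pos (by simp)]
      · intro w _ hw
        rw [if_neg]
        intro h'
        apply hw
        rw [h']
        simp
    · rw [Finset.sum_eq_zero]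
      · have : c τ = 0 := by
          simpa [hc] using hτ
        rw [this, zero_smul]
      · intro w hw
        rw [if_neg]
        intro h'
        apply hτ
        rw [h']
        simpa using hw
  refine ⟨d, fun τ => (c 1)⁻¹ * c τ, inv_mul_cancel₀ hc1', fun a ha => ?_⟩
  have := congrArg (fun x => (c 1)⁻¹ • x) (key a ha)
  simpa [Finset.smul_sum, mul_smul] using this

theorem finite_of_identity' {R M : Type} [Ring R] [AddCommGroup M] [Module R M]
    [IsSimpleModule R M] [DecidableEq (Module.End R M)] {m : ℕ}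
    (nn : Equiv.Perm (Fin m) → ℤ) (π0 : Equiv.Perm (Fin m))
    (h0 : ∀ v : M, nn π0 • v = 0 → v = 0)
    (hid : ∀ t : Fin m → R, ∑ π, nn π • (List.ofFn fun k => t (π k)).prod = 0) :
    Module.Finite (Module.End R M) M := by
  classical
  by_contra hinf
  have h1 : ((m + 1 : ℕ) : Cardinal) ≤ Module.rank (Module.End R M) M := by
    apply le_trans (Cardinal.natCast_lt_aleph0).le
    rw [← not_lt]
    intro h
    exact hinf (Module.rank_lt_aleph0_iff.1 h)
  obtain ⟨s, hs, hli⟩ := exists_finset_linearIndependent_of_le_rank h1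
  let e : Fin (m + 1) ≃ s := (Fintype.equivFinOfCardEq (by simpa using hs)).symm
  let v : Fin (m + 1) → M := fun i => (e i : M)
  have hv : LinearIndependent (Module.End R M) v := by
    have h2 : LinearIndependent (Module.End R M) (fun i : s => (i : M)) := hli
    exact h2.comp e e.injective
  have hf : ∀ k : Fin m, ∃ f : M →ₗ[Module.End R M] M,
      ∀ j, f (v j) = if j = k.succ then v k.castSucc else 0 := by
    intro k
    obtain ⟨g, hg⟩ := LinearMap.exists_extend ((Module.Basis.span hv).constr ℤ
      (fun j => if j = k.succ then v k.castSucc else 0))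
    refine ⟨g, fun j => ?_⟩
    have h3 := congrArg (fun h => h (Module.Basis.span hv j)) hg
    simp only [LinearMap.comp_apply, Module.Basis.constr_basis] at h3
    rw [← h3]
    congr 1
    simp [Module.Basis.span_apply]
  choose f hf using hf
  have hr : ∀ k : Fin m, ∃ r : R, ∀ j, r • v j = if j = k.succ then v k.castSucc else 0 := by
    intro k
    obtain ⟨r, hr⟩ := jacobson_density (f k) (Finset.univ.image v)
    refine ⟨r, fun j => ?_⟩
    rw [← hr (v j) (Finset.mem_image_of_mem v (Finset.mem_univ j)), hf]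
  choose r hr using hr
  have h2 := hid (fun j => r (π0⁻¹ j))
  have h3 := congrArg (fun z => z • v (Fin.last m)) h2
  simp only [Finset.sum_smul, zero_smul] at h3
  have h4 : ∀ π : Equiv.Perm (Fin m),
      (nn π • (List.ofFn fun k => r (π0⁻¹ (π k))).prod) • v (Fin.last m) =
      if π = π0 then nn π0 • v 0 else 0 := by
    intro π
    rw [smul_assoc]
    have h5 := chain_prod v r hr (π0⁻¹ * π)
    have h6 : (List.ofFn fun k => r (π0⁻¹ (π k))).prod • v (Fin.last m) =
      if π0⁻¹ * π = 1 then v 0 else 0 := h5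
    rw [h6]
    by_cases h7 : π = π0
    · rw [if_pos h7, if_pos (by rw [h7, inv_mul_cancel]), h7]
    · rw [if_neg h7, if_neg, smul_zero]
      intro h8
      exact h7 (inv_mul_eq_one.1 h8).symm
  rw [Finset.sum_congr rfl (fun π _ => h4 π), Finset.sum_ite_eq' Finset.univ π0,
    if_pos (Finset.mem_univ _)] at h3
  exact hv.ne_zero 0 (h0 _ h3)

theorem exists_matrix' {C : Type} [Ring C] {m : ℕ}
    (nn : Equiv.Perm (Fin m) → ℤ) (π0 : Equiv.Perm (Fin m)) (u : C) (h0 : nn π0 • u = 1)
    (hid : ∀ a : Fin m → C, ∑ π, nn π • (List.ofFn fun k => a (π k)).prod = 0)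
    {β : C} (hβ : ∀ k, β ^ k ≠ 0) :
    ∃ (K : Type) (_ : Field K) (s : ℕ) (Θ : C →+* Matrix (Fin s) (Fin s) K), ∀ k, Θ β ^ k ≠ 0 := by
  classical
  obtain ⟨M, i1, i2, hsimp, hM⟩ := exists_simple hβ
  let ρ : C[X] →+* AddMonoid.End M := Module.toAddMonoidEnd C[X] M
  have hρ : ∀ q (v : M), ρ q v = q • v := fun q v => rfl
  obtain ⟨X', hX1, hX2, hX3⟩ := exists_comm_max (Set.range ρ)
  have hone : (1 : AddMonoid.End M) ∈ X' :=
    hX3 1 (fun s _ => by rw [one_mul, mul_one]) (fun s _ => by rw [one_mul, mul_one])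
  have hmul : ∀ a ∈ X', ∀ b ∈ X', a * b ∈ X' := by
    intro a ha b hb
    apply hX3
    · intro s hs
      rw [mul_assoc, hX1 b hb s hs, ← mul_assoc, hX1 a ha s hs, mul_assoc]
    · intro s hs
      rw [mul_assoc, hX2 b hb s hs, ← mul_assoc, hX2 a ha s hs, mul_assoc]
  have hX : ρ X ∈ X' := by
    apply hX3
    · rintro _ ⟨q, rfl⟩
      rw [← map_mul, ← map_mul, X_mul]
    · intro ψ hψ
      exact (hX1 ψ hψ _ ⟨X, rfl⟩).symm
  let G : Submonoid (AddMonoid.End M) :=
    { carrier := {z | ∃ r : C, ∃ κ ∈ X', z = (ρ.comp Polynomial.C) r * κ}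
      mul_mem' := by
        rintro _ _ ⟨r, κ, hκ, rfl⟩ ⟨r', κ', hκ', rfl⟩
        refine ⟨r * r', κ * κ', hmul _ hκ _ hκ', ?_⟩
        have e := hX1 κ hκ ((ρ.comp Polynomial.C) r') ⟨Polynomial.C r', rfl⟩
        rw [map_mul, mul_assoc, ← mul_assoc κ, e]
        simp only [mul_assoc]
      one_mem' := ⟨1, 1, hone, by rw [map_one, one_mul]⟩ }
  let T : Subring (AddMonoid.End M) := Subring.closure (G : Set (AddMonoid.End M))
  have hT : ∀ t ∈ T, t ∈ AddSubgroup.closure
      {z | ∃ r : C, ∃ κ ∈ X', z = (ρ.comp Polynomial.C) r * κ} := by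
    intro t ht
    have h1 := Subring.mem_closure_iff.1 ht
    rw [Submonoid.closure_eq] at h1
    exact h1
  have hCT : ∀ r : C, ρ (Polynomial.C r) ∈ T := fun r =>
    Subring.subset_closure ⟨r, 1, hone, by rw [mul_one]; rfl⟩
  have hXT : ∀ κ ∈ X', κ ∈ T := fun κ hκ =>
    Subring.subset_closure ⟨1, κ, hκ, by rw [map_one, one_mul]⟩
  have hρT : ∀ q : C[X], ρ q ∈ T := by
    intro q
    induction q using Polynomial.induction_on with
    | C a => exact hCT a
    | add p q hp hq => rw [map_add]; exact add_mem hp hq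
    | monomial n a _ =>
      rw [map_mul, map_pow]
      exact mul_mem (hCT a) (pow_mem (hXT _ hX) _)
  have hsT : IsSimpleModule T M := by
    rw [isSimpleModule_iff_toSpanSingleton_surjective]
    obtain ⟨hn, hs⟩ := isSimpleModule_iff_toSpanSingleton_surjective.1 hsimp
    refine ⟨hn, fun x hx y => ?_⟩
    obtain ⟨q, hq⟩ := hs x hx y
    exact ⟨⟨ρ q, hρT q⟩, hq⟩
  -- endomorphisms
  let toE : Module.End T M → AddMonoid.End M := fun φ => φ.toAddMonoidHom
  have hend : ∀ φ : Module.End T M, toE φ ∈ X' := by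
    intro φ
    have h1 : ∀ t ∈ T, toE φ * t = t * toE φ := by
      intro t ht
      ext v
      exact φ.map_smul (⟨t, ht⟩ : T) v
    apply hX3
    · rintro _ ⟨q, rfl⟩
      exact h1 _ (hρT q)
    · intro ψ hψ
      exact h1 _ (hXT ψ hψ)
  have hcomm : ∀ φ ψ : Module.End T M, φ * ψ = ψ * φ := by
    intro φ ψ
    have h1 := hX2 _ (hend φ) _ (hend ψ)
    ext v
    exact congrArg (fun f : AddMonoid.End M => f v) h1
  have hidT : ∀ t : Fin m → T, ∑ π, nn π • (List.ofFn fun k => t (π k)).prod = 0 := by
    intro t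
    have h1 := identity_ext nn (ρ.comp Polynomial.C) hid X' hX2
      (fun κ hκ r => hX1 κ hκ _ ⟨Polynomial.C r, rfl⟩) (fun j => (t j : AddMonoid.End M))
      (fun j => hT _ (t j).2)
    apply Subtype.val_injective
    rw [AddSubmonoidClass.coe_finsetSum]
    change _ = (0 : AddMonoid.End M)
    rw [← h1]
    apply Finset.sum_congr rfl
    intro π _
    have h2 : (((List.ofFn fun k => t (π k)).prod : T) : AddMonoid.End M) =
        (List.ofFn fun k => (t (π k) : AddMonoid.End M)).prod := by
      have := map_list_prod T.subtype (List.ofFn fun k => t (π k))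
      rw [List.map_ofFn] at this
      exact this
    rw [← h2]
    rfl
  let iD : DivisionRing (Module.End T M) := Module.End.instDivisionRing
  let iF : Field (Module.End T M) := { iD with mul_comm := hcomm }
  have hNv : ∀ v : M, nn π0 • v = 0 → v = 0 := by
    intro v hv
    have h1 : (Polynomial.C (nn π0 • u) : C[X]) • v = v := by
      rw [h0, map_one, one_smul]
    rw [← h1, map_zsmul, smul_assoc, smul_comm, hv, smul_zero]
  have hfin : Module.Finite (Module.End T M) M := finite_of_identity' nn π0 hNv hidT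
  let toT : C →+* T := (ρ.comp Polynomial.C).codRestrict T hCT
  let ψ : C →+* Module.End (Module.End T M) M := (Module.toModuleEnd (Module.End T M) M).comp toT
  obtain ⟨s, Θ, hΘ⟩ := matrix_of_comm ψ β (by
    intro k hk
    obtain ⟨v, hv⟩ := hM k
    apply hv
    have h1 : ∀ j, (ψ β ^ j) v = (Polynomial.C β : C[X]) ^ j • v := by
      intro j
      induction j with
      | zero => rw [pow_zero, pow_zero, one_smul]; rfl
      | succ j ih =>
        rw [pow_succ', pow_succ', mul_smul, ← ih]
        rfl
    rw [← h1, hk]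
    rfl)
  exact ⟨_, iF, s, Θ, hΘ⟩

end Pool.Agent.R685
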