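import Pool.Agent.R685.NEa

/-! Torsion-free rings without zero divisors in the variety are commutative. -/

set_option autoImplicit false

namespace Pool.Agent.R685

open Pool.Agent.H854R3.NE Polynomial TensorProduct

/-- the free algebra over the rationals -/
abbrev FQ := FreeAlgebra ℚ (Fin 2)

/-- first generator -/
def q0 : FQ := FreeAlgebra.ι ℚ 0
/-- second generator -/
def q1 : FQ := FreeAlgebra.ι ℚ 1

/-- the free ring without one -/
abbrev PhiQ : NonUnitalSubring FQ := sub2 q0 q1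

/-- a homomorphism from the free ring -/
noncomputable def toMatQ : FQ →ₐ[ℚ] Matrix (Fin 2) (Fin 2) ℚ :=
  FreeAlgebra.lift ℚ ![!![0, 1; 0, 0], !![0, 0; 0, 1]]

theorem toMatQ_q0 : toMatQ q0 = !![0, 1; 0, 0] := by
  simp [toMatQ, q0]

theorem toMatQ_q1 : toMatQ q1 = !![0, 0; 0, 1] := by
  simp [toMatQ, q1]

theorem not_models_PhiQ {E : Set (RTerm × RTerm)} {n : ℕ} (hD : D2Engel E n) :
    ¬ Models E PhiQ := by
  intro hM
  let χ : PhiQ →ₙ+* Matrix (Fin 2) (Fin 2) ℚ :=
    { toFun := fun w => toMatQ (w : FQ)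
      map_mul' := fun a b => map_mul toMatQ (a : FQ) b
      map_zero' := map_zero toMatQ
      map_add' := fun a b => map_add toMatQ (a : FQ) b }
  let T : NonUnitalSubring (Matrix (Fin 2) (Fin 2) ℚ) := χ.range
  have hT : Models E T := hM.of_surjective χ.rangeRestrict
    (NonUnitalRingHom.rangeRestrict_surjective χ)
  have hgen := genBy_sub2 q0 q1
  have hχ0 : χ (sx q0 q1) = !![0, 1; 0, 0] := toMatQ_q0
  have hχ1 : χ (sy q0 q1) = !![0, 0; 0, 1] := toMatQ_q1
  have htri : ∀ t ∈ T, t 1 0 = 0 := by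
    rintro _ ⟨w, rfl⟩
    refine hgen.induction (P := fun w => χ w 1 0 = 0) ?_ ?_ ?_ ?_ ?_ ?_ w
    · rw [hχ0]; rfl
    · rw [hχ1]; rfl
    · rw [map_zero]; rfl
    · intro a b ha hb; rw [map_add, Matrix.add_apply, ha, hb, add_zero]
    · intro a ha; rw [map_neg, Matrix.neg_apply, ha, neg_zero]
    · intro a b ha hb
      rw [map_mul, Matrix.mul_apply, Fin.sum_univ_two, ha, hb, zero_mul, mul_zero, add_zero]
  have hcom : ∀ g ∈ Comm T, (g : Matrix (Fin 2) (Fin 2) ℚ) 0 0 = 0 ∧
      (g : Matrix (Fin 2) (Fin 2) ℚ) 1 0 = 0 ∧ (g : Matrix (Fin 2) (Fin 2) ℚ) 1 1 = 0 := by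
    rintro _ ⟨x, y, rfl⟩
    have hx := htri _ x.2
    have hy := htri _ y.2
    have e : ((x * y - y * x : T) : Matrix (Fin 2) (Fin 2) ℚ) =
      (x : Matrix (Fin 2) (Fin 2) ℚ) * y - y * x := rfl
    rw [e]
    refine ⟨?_, ?_, ?_⟩
    · simp [Matrix.mul_apply, Fin.sum_univ_two, hx, hy, mul_comm]
    · simp [Matrix.mul_apply, Fin.sum_univ_two, hx, hy]
    · simp [Matrix.mul_apply, Fin.sum_univ_two, hx, hy, mul_comm]
  have hD2 : D2 T := by
    constructor
    · intro a ha b hb
      obtain ⟨a1, a2, a3⟩ := hcom a ha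
      obtain ⟨b1, b2, b3⟩ := hcom b hb
      apply Subtype.ext
      change (a : Matrix (Fin 2) (Fin 2) ℚ) * b = 0
      ext i j
      fin_cases i <;> fin_cases j <;>
        simp [Matrix.mul_apply, Fin.sum_univ_two, a1, a2, a3, b1, b2, b3]
    · intro a ha b hb c
      obtain ⟨a1, a2, a3⟩ := hcom a ha
      obtain ⟨b1, b2, b3⟩ := hcom b hb
      have hc := htri _ c.2
      apply Subtype.ext
      change (a : Matrix (Fin 2) (Fin 2) ℚ) * c * b = 0
      ext i j
      fin_cases i <;> fin_cases j <;>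
        simp [Matrix.mul_apply, Fin.sum_univ_two, a1, a2, a3, b1, b2, b3, hc]
  have h1 := hD.2 T hT hD2 (χ.rangeRestrict (sx q0 q1)) (χ.rangeRestrict (sy q0 q1))
  have h2 := eng_map (NonUnitalSubringClass.subtype T) (χ.rangeRestrict (sx q0 q1))
    (χ.rangeRestrict (sy q0 q1)) n
  rw [h1, map_zero] at h2
  have h3 : eng (!![0, 1; 0, 0] : Matrix (Fin 2) (Fin 2) ℚ) !![0, 0; 0, 1] n = 0 := by
    rw [← hχ0, ← hχ1]
    exact h2.symm
  have h4 : ∀ k, eng (!![0, 1; 0, 0] : Matrix (Fin 2) (Fin 2) ℚ) !![0, 0; 0, 1] k =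
      !![0, 1; 0, 0] := by
    intro k
    induction k with
    | zero => rfl
    | succ k ih =>
      change eng (!![0, 1; 0, 0] : Matrix (Fin 2) (Fin 2) ℚ) !![0, 0; 0, 1] k * _ -
        _ * eng (!![0, 1; 0, 0] : Matrix (Fin 2) (Fin 2) ℚ) !![0, 0; 0, 1] k = _
      rw [ih]
      ext i j
      fin_cases i <;> fin_cases j <;> simp [Matrix.mul_apply, Fin.sum_univ_two]
  rw [h4] at h3
  have h5 := congrFun (congrFun h3 0) 1
  have h6 : (1 : ℚ) = 0 := h5
  exact one_ne_zero h6

theorem exists_polyQ {E : Set (RTerm × RTerm)} {n : ℕ} (hD : D2Engel E n) :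
    ∃ f : FQ, f ≠ 0 ∧ ∀ (A C : Type) [NonUnitalRing A] [Ring C] [Algebra ℚ C] (j : A →ₙ+* C),
      Function.Injective j → Models E A → ∀ x y : A, FreeAlgebra.lift ℚ ![j x, j y] f = 0 := by
  by_contra hcon
  push Not at hcon
  apply not_models_PhiQ hD
  intro e he v
  by_contra hne
  have hw : ((e.1.val v - e.2.val v : PhiQ) : FQ) ≠ 0 := by
    intro h
    apply hne
    have : e.1.val v - e.2.val v = 0 := Subtype.ext h
    exact sub_eq_zero.1 this
  obtain ⟨A, C, i1, i2, i3, j, hj, hA, x, y, hxy⟩ := hcon _ hw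
  let L := FreeAlgebra.lift ℚ ![j x, j y]
  have hL : ∀ w : PhiQ, ∃ a : A, L (w : FQ) = j a := by
    intro w
    refine (genBy_sub2 q0 q1).induction (P := fun w => ∃ a : A, L (w : FQ) = j a)
      ?_ ?_ ?_ ?_ ?_ ?_ w
    · exact ⟨x, by simp [L, sx, q0]⟩
    · exact ⟨y, by simp [L, sy, q1]⟩
    · exact ⟨0, by simp⟩
    · rintro a b ⟨a', ha⟩ ⟨b', hb⟩
      refine ⟨a' + b', ?_⟩
      change L ((a : FQ) + b) = _
      rw [map_add, ha, hb, map_add]
    · rintro a ⟨a', ha⟩
      refine ⟨-a', ?_⟩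
      change L (-(a : FQ)) = _
      rw [map_neg, ha, map_neg]
    · rintro a b ⟨a', ha⟩ ⟨b', hb⟩
      refine ⟨a' * b', ?_⟩
      change L ((a : FQ) * b) = _
      rw [map_mul, ha, hb, map_mul]
  choose ψ hψ using hL
  let Ψ : PhiQ →ₙ+* A :=
    { toFun := ψ
      map_mul' := by
        intro a b
        apply hj
        rw [map_mul, ← hψ, ← hψ, ← hψ]
        exact map_mul L (a : FQ) b
      map_zero' := by
        apply hj
        rw [map_zero, ← hψ]
        exact map_zero L
      map_add' := by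
        intro a b
        apply hj
        rw [map_add, ← hψ, ← hψ, ← hψ]
        exact map_add L (a : FQ) b }
  apply hxy
  have h1 : Ψ (e.1.val v - e.2.val v) = 0 := by
    rw [map_sub, val_map, val_map, sub_eq_zero]
    exact hA e he _
  have h2 : L ((e.1.val v - e.2.val v : PhiQ) : FQ) = j (Ψ (e.1.val v - e.2.val v)) := hψ _
  rw [h1, map_zero] at h2
  exact h2

section emb

variable {P : Type} [NonUnitalRing P]

/-- the rational span -/
abbrev QP (P : Type) [NonUnitalRing P] : Type := ℚ ⊗[ℤ] P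

theorem one_tmul_inj (htf : ∀ (m : ℤ) (a : P), m ≠ 0 → m • a = 0 → a = 0) {a : P}
    (h : (1 : ℚ) ⊗ₜ[ℤ] a = 0) : a = 0 := by
  have hflat : Module.Flat ℤ P := by
    rw [IsDedekindDomain.flat_iff_torsion_eq_bot, eq_bot_iff]
    intro x hx
    rw [Submodule.mem_torsion_iff] at hx
    obtain ⟨m, hm⟩ := hx
    exact htf (m : ℤ) x (nonZeroDivisors.coe_ne_zero m) hm
  have h1 := Module.Flat.rTensor_preserves_injective_linearMap (M := P)
    (Algebra.linearMap ℤ ℚ) (by
      intro x y hxy
      simpa using hxy)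
  have h2 : LinearMap.rTensor P (Algebra.linearMap ℤ ℚ) ((1 : ℤ) ⊗ₜ[ℤ] a) = 0 := by
    rw [LinearMap.rTensor_tmul]
    simpa using h
  have h3 : (1 : ℤ) ⊗ₜ[ℤ] a = 0 := h1 (h2.trans (map_zero _).symm)
  have h4 := congrArg (TensorProduct.lid ℤ P) h3
  simpa using h4

/-- the embedding -/
noncomputable def emb (P : Type) [NonUnitalRing P] : P →ₙ+* QP P where
  toFun a := (1 : ℚ) ⊗ₜ[ℤ] a
  map_mul' a b := by
    rw [Algebra.TensorProduct.tmul_mul_tmul, one_mul]
  map_zero' := by rw [TensorProduct.tmul_zero]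
  map_add' a b := by rw [TensorProduct.tmul_add]

theorem emb_apply (a : P) : emb P a = (1 : ℚ) ⊗ₜ[ℤ] a := rfl

theorem emb_inj (htf : ∀ (m : ℤ) (a : P), m ≠ 0 → m • a = 0 → a = 0) :
    Function.Injective (emb P) := by
  intro a b hab
  rw [emb_apply, emb_apply] at hab
  rw [← sub_eq_zero, ← TensorProduct.tmul_sub] at hab
  exact sub_eq_zero.1 (one_tmul_inj htf hab)

theorem emb_span : Submodule.span ℚ (Set.range (emb P)) = ⊤ := by
  rw [eq_top_iff]
  rintro z -
  induction z using TensorProduct.induction_on with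
  | zero => exact Submodule.zero_mem _
  | add z w hz hw => exact Submodule.add_mem _ hz hw
  | tmul q a =>
    have : q ⊗ₜ[ℤ] a = q • ((1 : ℚ) ⊗ₜ[ℤ] a) := by
      rw [TensorProduct.smul_tmul', smul_eq_mul, mul_one]
    rw [this]
    exact Submodule.smul_mem _ _ (Submodule.subset_span ⟨a, rfl⟩)

end emb

/-- two-generated rings without zero divisors embedded in algebras over the rationals are
commutative -/
theorem comm_of_emb {E : Set (RTerm × RTerm)} {n : ℕ} (hD : D2Engel E n)
    {P : Type} [NonUnitalRing P] (hP : Models E P)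
    (hdom : ∀ a b : P, a * b = 0 → a = 0 ∨ b = 0) {x y : P}
    (hg : GenBy x y) (B : Type) [NonUnitalRing B] [Module ℚ B] [IsScalarTower ℚ B B]
    [SMulCommClass ℚ B B] (j : P →ₙ+* B) (hj : Function.Injective j)
    (hspanE : Submodule.span ℚ (Set.range j) = ⊤) : x * y = y * x := by
  classical
  by_contra hne
  set α := x * y - y * x with hα
  have hα0 : α ≠ 0 := fun h => hne (sub_eq_zero.1 h)
  have hαk : ∀ k, npw α k ≠ 0 := by
    intro k
    induction k with
    | zero => exact hα0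
    | succ k ih =>
      intro h
      rcases hdom _ _ h with h | h
      · exact ih h
      · exact hα0 h
  obtain ⟨f, hf0, hf⟩ := exists_polyQ hD
  let J : P →ₙ+* Unitization ℚ B :=
    { toFun := fun a => ((j a : B) : Unitization ℚ B)
      map_mul' := by intro a b; rw [map_mul, Unitization.inr_mul]
      map_zero' := by rw [map_zero, Unitization.inr_zero]
      map_add' := by intro a b; rw [map_add, Unitization.inr_add] }
  have hJ : ∀ a, J a = ((j a : B) : Unitization ℚ B) := fun a => rfl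
  have hinj : Function.Injective J := fun a b hab => hj (Unitization.inr_injective (R := ℚ) hab)
  let S : AddSubgroup (Unitization ℚ B) := J.toAddMonoidHom.range
  have hS : ∀ z, z ∈ S ↔ ∃ a : P, J a = z := fun z => Iff.rfl
  have hfS : ∀ a : Fin 2 → Unitization ℚ B, (∀ i, a i ∈ S) →
      FreeAlgebra.lift ℚ a f = 0 := by
    intro a ha
    obtain ⟨u, hu⟩ := (hS _).1 (ha 0)
    obtain ⟨v, hv⟩ := (hS _).1 (ha 1)
    have : a = ![J u, J v] := by
      funext i
      fin_cases i
      · exact hu.symm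
      · exact hv.symm
    rw [this]
    exact hf P (Unitization ℚ B) (J) hinj hP u v
  obtain ⟨d, c, hc1, hc⟩ := linearise' (F := ℚ) (C := Unitization ℚ B) S f hf0 hfS
  -- extension to the rational span
  let g : MultilinearMap ℚ (fun _ : Fin d => B) (Unitization ℚ B) :=
    (∑ τ : Equiv.Perm (Fin d), c τ • ((MultilinearMap.mkPiAlgebraFin ℚ d
      (Unitization ℚ B)).domDomCongr τ)).compLinearMap
        (fun _ => Unitization.inrHom ℚ ℚ (B))
  have hgv : ∀ X : Fin d → B, g X = ∑ τ, c τ • (List.ofFn fun k =>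
      ((X (τ k) : B) : Unitization ℚ B)).prod := by
    intro X
    simp only [g, MultilinearMap.compLinearMap_apply, _root_.sum_apply, _root_.smul_apply,
      MultilinearMap.domDomCongr_apply, MultilinearMap.mkPiAlgebraFin_apply]
    rfl
  have hg0 : ∀ X, g X = 0 := by
    intro X
    refine Pool.Agent.H67.PI.multilin_zero g _ hspanE ?_ X
    intro X hX
    choose a ha using hX
    rw [hgv]
    have h1 := hc (fun i => J (a i)) (fun i => (hS _).2 ⟨a i, rfl⟩)
    rw [← h1]
    apply Finset.sum_congr rfl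
    intro τ _
    congr 3
    funext k
    rw [hJ, ha]
  let S' : Submodule ℚ (Unitization ℚ B) :=
    { carrier := {z | ∃ a : B, (a : Unitization ℚ B) = z}
      add_mem' := by
        rintro _ _ ⟨a, rfl⟩ ⟨b, rfl⟩
        exact ⟨a + b, Unitization.inr_add _ a b⟩
      zero_mem' := ⟨0, Unitization.inr_zero _⟩
      smul_mem' := by
        rintro c _ ⟨a, rfl⟩
        exact ⟨c • a, Unitization.inr_smul _ c a⟩ }
  have hS' : ∀ z, z ∈ S' ↔ ∃ a : B, (a : Unitization ℚ B) = z := fun z => Iff.rfl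
  obtain ⟨m, β, _, hβ, hX⟩ := Pool.Agent.H67.PI.matrix_identity (F := ℚ)
    (C := Unitization ℚ B) S'
    (by
      rintro u hu v hv
      obtain ⟨u, rfl⟩ := (hS' _).1 hu
      obtain ⟨v, rfl⟩ := (hS' _).1 hv
      exact (hS' _).2 ⟨u * v, Unitization.inr_mul _ u v⟩) c hc1
    (by
      intro a ha
      choose b hb using ha
      have h1 := hg0 b
      rw [hgv] at h1
      rw [← h1]
      apply Finset.sum_congr rfl
      intro τ _
      congr 3
      funext k
      exact (hb (τ k)).symm)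
    (by
      intro x
      induction x using Unitization.ind with
      | inl_add_inr t s =>
        refine ⟨t, s, (hS' _).2 ⟨s, rfl⟩, ?_⟩
        apply Unitization.ext
        · simp
        · simp) Unit
  have hid : ∀ a : Fin m → Unitization ℚ B,
      ∑ π, β π • (List.ofFn fun k => a (π k)).prod = 0 := by
    intro a
    have h1 := hX (fun k => Matrix.scalar Unit (a k))
    have h2 : ∀ π : Equiv.Perm (Fin m), (List.ofFn fun k => Matrix.scalar Unit (a (π k))).prod =
        Matrix.scalar Unit ((List.ofFn fun k => a (π k)).prod) := by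
      intro π
      have h3 := map_list_prod (Matrix.scalar Unit : Unitization ℚ B →+* _)
        (List.ofFn fun k => a (π k))
      rw [h3, List.map_ofFn]
      rfl
    simp only [h2] at h1
    have h3 := congrFun (congrFun h1 ()) ()
    rw [Matrix.sum_apply] at h3
    simpa using h3
  obtain ⟨π0, hπ0⟩ : ∃ π0, β π0 ≠ 0 := by
    by_contra hcon
    push Not at hcon
    exact hβ (funext hcon)
  obtain ⟨b, hb⟩ := IsLocalization.exist_integer_multiples_of_finite (nonZeroDivisors ℤ) β
  choose nn hnn using hb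
  have hnn' : ∀ π, (nn π : ℚ) = ((b : ℤ) : ℚ) * β π := by
    intro π
    have := hnn π
    rw [eq_intCast, zsmul_eq_mul] at this
    exact this
  have hb0 : ((b : ℤ) : ℚ) ≠ 0 := by exact_mod_cast nonZeroDivisors.coe_ne_zero b
  have hn0 : (nn π0 : ℚ) ≠ 0 := by
    rw [hnn']; exact mul_ne_zero hb0 hπ0
  have hid' : ∀ a : Fin m → Unitization ℚ B,
      ∑ π, nn π • (List.ofFn fun k => a (π k)).prod = 0 := by
    intro a
    have h1 : ∀ π, nn π • (List.ofFn fun k => a (π k)).prod =
        ((b : ℤ) : ℚ) • (β π • (List.ofFn fun k => a (π k)).prod) := by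
      intro π
      rw [smul_smul, ← hnn', Int.cast_smul_eq_zsmul]
    rw [Finset.sum_congr rfl (fun π _ => h1 π), ← Finset.smul_sum, hid a, smul_zero]
  have hu : nn π0 • (algebraMap ℚ (Unitization ℚ B) (nn π0 : ℚ)⁻¹) = 1 := by
    rw [← map_zsmul, zsmul_eq_mul, mul_inv_cancel₀ hn0, map_one]
  have hβk : ∀ k, J (npw α k) = (J α) ^ (k + 1) := by
    intro k
    rw [npw_map, npw_eq_pow]
  have hβ' : ∀ k, (J α) ^ k ≠ 0 := by
    intro k
    cases k with
    | zero => rw [pow_zero]; exact one_ne_zero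
    | succ k =>
      rw [← hβk]
      intro h
      exact hαk k (hinj (h.trans (map_zero (J)).symm))
  obtain ⟨K, iK, s, Θ, hΘ⟩ := exists_matrix' nn π0 _ hu hid' hβ'
  let Θ₁ : P →ₙ+* Matrix (Fin s) (Fin s) K :=
    { toFun := fun a => Θ (J a)
      map_mul' := by intro a b; rw [map_mul, map_mul]
      map_zero' := by rw [map_zero, map_zero]
      map_add' := by intro a b; rw [map_add, map_add] }
  obtain ⟨k, hk⟩ := no_rep hD hP hg Θ₁
  rw [npw_eq_pow] at hk
  exact hΘ (k + 1) hk

/-- two-generated torsion-free rings without zero divisors are commutative -/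
theorem domain_comm0 {E : Set (RTerm × RTerm)} {n : ℕ} (hD : D2Engel E n)
    {P : Type} [NonUnitalRing P] (hP : Models E P)
    (htf : ∀ (m : ℤ) (a : P), m ≠ 0 → m • a = 0 → a = 0)
    (hdom : ∀ a b : P, a * b = 0 → a = 0 ∨ b = 0) {x y : P}
    (hg : GenBy x y) : x * y = y * x :=
  comm_of_emb hD hP hdom hg (QP P) (emb P) (emb_inj htf) emb_span

end Pool.Agent.R685
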