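import Pool.Agent.R685.NEb

/-! A variety of associative rings is Engel if its intersections with the varieties given by the
pairs `(p, q)` are Engel; minimal non-Engel varieties are Cross varieties. -/

set_option autoImplicit false

namespace Pool.Agent.R685

open Pool.Agent.H854R3.NE

theorem prime_comm' {E : Set (RTerm × RTerm)} {n : ℕ} (hD : D2Engel E n)
    (hW : ∀ p : ℕ, p.Prime → IsEngel (E ∪ WId p (p ^ 1))) {P : Type} [NonUnitalRing P]
    (hP : Models E P) (hprime : PrimeR P) (x y : P) : x * y = y * x := by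
  have hdom : ∀ a b : P, a * b = 0 → a = 0 ∨ b = 0 := fun a b hab =>
    domain_of_prime hD hP hprime hab
  by_cases h : ∃ p : ℕ, p.Prime ∧ ∃ a : P, a ≠ 0 ∧ p • a = 0
  · obtain ⟨p, hp, a, ha, hpa⟩ := h
    have : Fact p.Prime := ⟨hp⟩
    have hpP : ∀ x : P, p • x = 0 := by
      intro x
      have h1 : (p • x) * a = 0 := by rw [smul_mul_assoc, ← mul_smul_comm, hpa, mul_zero]
      exact (hdom _ _ h1).resolve_right ha
    exact prime_comm hD (hW p hp) hP hpP hprime x y
  · push Not at h
    have htn : ∀ (m : ℕ) (a : P), m ≠ 0 → m • a = 0 → a = 0 := by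
      intro m
      induction m using Nat.recOnMul with
      | zero => intro a h0; exact absurd rfl h0
      | one => intro a _ h1; rwa [one_smul] at h1
      | prime p hp =>
        intro a _ h1
        by_contra ha
        exact h p hp a ha h1
      | mul k l hk hl =>
        intro a h0 h1
        have hk0 : k ≠ 0 := fun h => h0 (by rw [h, zero_mul])
        have hl0 : l ≠ 0 := fun h => h0 (by rw [h, mul_zero])
        rw [mul_smul] at h1
        exact hl a hl0 (hk _ hk0 h1)
    have htf : ∀ (m : ℤ) (a : P), m ≠ 0 → m • a = 0 → a = 0 := by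
      intro m a hm h1
      apply htn m.natAbs a (Int.natAbs_ne_zero.2 hm)
      rcases Int.natAbs_eq m with h2 | h2
      · rw [h2, natCast_zsmul] at h1
        exact h1
      · rw [h2, neg_smul, natCast_zsmul, neg_eq_zero] at h1
        exact h1
    have h1 := domain_comm0 hD (hP.subring (sub2 x y)) (fun m a hm h1 => by
        apply Subtype.ext
        exact htf m (a : P) hm (congrArg Subtype.val h1))
      (fun a b hab => by
        rcases hdom (a : P) (b : P) (congrArg Subtype.val hab) with h | h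
        · exact Or.inl (Subtype.ext h)
        · exact Or.inr (Subtype.ext h)) (genBy_sub2 x y)
    exact congrArg Subtype.val h1

/-- a ring generated by `a` and `y`, where the ideal generated by `a` has square zero -/
theorem D2_of_sq {R : Type} [NonUnitalRing R] {a y : R} (hg : GenBy a y) (haa : a * a = 0)
    (har : ∀ r : R, a * r * a = 0) : D2 R := by
  have hmem : ∀ g ∈ Comm R, g ∈ TwoSidedIdeal.span ({a} : Set R) := by
    rintro g ⟨u, v, rfl⟩
    obtain ⟨Q, inst, φ, hφ, hker⟩ := exists_quot (TwoSidedIdeal.span ({a} : Set R))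
    rw [← hker, map_sub, map_mul, map_mul, sub_eq_zero]
    have ha0 : φ a = 0 := (hker a).2 (TwoSidedIdeal.subset_span rfl)
    have hcy : ∀ w : R, φ w * φ y = φ y * φ w := by
      intro w
      refine hg.induction (P := fun w => φ w * φ y = φ y * φ w) ?_ rfl ?_ ?_ ?_ ?_ w
      · rw [ha0, zero_mul, mul_zero]
      · rw [map_zero, zero_mul, mul_zero]
      · intro b c hb hc; rw [map_add, add_mul, mul_add, hb, hc]
      · intro b hb; rw [map_neg, neg_mul, mul_neg, hb]
      · intro b c hb hc; rw [map_mul, mul_assoc, hc, ← mul_assoc, hb, mul_assoc]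
    refine hg.induction (P := fun v => φ u * φ v = φ v * φ u) ?_ (hcy u) ?_ ?_ ?_ ?_ v
    · rw [ha0, zero_mul, mul_zero]
    · rw [map_zero, zero_mul, mul_zero]
    · intro b c hb hc; rw [map_add, add_mul, mul_add, hb, hc]
    · intro b hb; rw [map_neg, neg_mul, mul_neg, hb]
    · intro b c hb hc; rw [map_mul, ← mul_assoc, hb, mul_assoc, hc, mul_assoc]
  have key : ∀ m ∈ TwoSidedIdeal.span ({a} : Set R), ∀ n ∈ TwoSidedIdeal.span ({a} : Set R),
      m * n = 0 := by
    intro m hm n hn
    refine span_mul_zero (G := {a}) ?_ ?_ hm hn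
    · rintro b rfl c rfl; exact haa
    · rintro b rfl c rfl r; exact har r
  refine ⟨fun b hb c hc => key b (hmem b hb) c (hmem c hc), fun b hb c hc r => ?_⟩
  exact key _ ((TwoSidedIdeal.span ({a} : Set R)).mul_mem_right _ _ (hmem b hb)) c (hmem c hc)

/-- elements of the ideal generated by an element that annihilates another one -/
theorem span_ann {R : Type} [NonUnitalRing R] {a b : R} (h : ∀ r : R, a * r * b = 0) :
    ∀ u ∈ TwoSidedIdeal.span ({a} : Set R), ∀ v ∈ TwoSidedIdeal.span ({b} : Set R),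
      ∀ r : R, u * r * v = 0 := by
  -- the set of the `u` with `u r b = 0` for all `r`
  have step1 : ∀ u ∈ TwoSidedIdeal.span ({a} : Set R), ∀ r : R, u * r * b = 0 := by
    let I : TwoSidedIdeal R := TwoSidedIdeal.mk' {u | ∀ r : R, u * r * b = 0}
      (fun r => by rw [zero_mul, zero_mul])
      (fun {u v} hu hv r => by rw [add_mul, add_mul, hu, hv, add_zero])
      (fun {u} hu r => by rw [neg_mul, neg_mul, hu, neg_zero])
      (fun {x u} hu r => by
        have := hu r
        rw [mul_assoc x, mul_assoc x, this, mul_zero])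
      (fun {u x} hu r => by
        have := hu (x * r)
        rw [← mul_assoc] at this
        exact this)
    have hI : ∀ u, u ∈ I ↔ ∀ r : R, u * r * b = 0 := fun u => by
      rw [TwoSidedIdeal.mem_mk']
      rfl
    have hle : TwoSidedIdeal.span ({a} : Set R) ≤ I := by
      rw [TwoSidedIdeal.span_le]
      rintro x rfl
      exact (hI _).2 h
    intro u hu
    exact (hI u).1 (hle hu)
  intro u hu
  let I : TwoSidedIdeal R := TwoSidedIdeal.mk' {v | ∀ r : R, u * r * v = 0}
    (fun r => by rw [mul_zero])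
    (fun {v w} hv hw r => by rw [mul_add, hv, hw, add_zero])
    (fun {v} hv r => by rw [mul_neg, hv, neg_zero])
    (fun {x v} hv r => by
      have := hv (r * x)
      rw [← mul_assoc] at this
      rw [← mul_assoc]
      exact this)
    (fun {v x} hv r => by rw [← mul_assoc, hv, zero_mul])
  have hI : ∀ v, v ∈ I ↔ ∀ r : R, u * r * v = 0 := fun v => by
    rw [TwoSidedIdeal.mem_mk']
    rfl
  have hle : TwoSidedIdeal.span ({b} : Set R) ≤ I := by
    rw [TwoSidedIdeal.span_le]
    rintro x rfl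
    exact (hI _).2 (step1 u hu)
  intro v hv
  exact (hI v).1 (hle hv)

theorem eng_of_all {E : Set (RTerm × RTerm)} {n : ℕ} (hD : D2Engel E n)
    (hW : ∀ p : ℕ, p.Prime → IsEngel (E ∪ WId p (p ^ 1))) {A : Type} [NonUnitalRing A]
    (hA : Models E A) (x y : A) : ∃ N, eng x y N = 0 := by
  by_contra hcon
  push Not at hcon
  obtain ⟨I, hI, hmax⟩ := exists_max_ideal (fun I : TwoSidedIdeal A => ∀ N, eng x y N ∉ I)
    (by intro N; rw [TwoSidedIdeal.mem_bot]; exact hcon N)
    (by
      intro c _ _ hc U hU N hN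
      obtain ⟨J, hJ, hN'⟩ := (hU _).1 hN
      exact hc J hJ N hN')
  obtain ⟨Q, inst, φ, hφ, hker⟩ := exists_quot I
  have hQ : Models E Q := hA.of_surjective φ hφ
  set X := φ x with hX
  set Y := φ y with hY
  have hne : ∀ N, eng X Y N ≠ 0 := by
    intro N h
    rw [hX, hY, ← eng_map, hker] at h
    exact hI N h
  have hev : ∀ J : TwoSidedIdeal Q, J ≠ ⊥ → ∃ N, eng X Y N ∈ J := by
    intro J hJ
    by_contra hcon2
    push Not at hcon2
    let J' : TwoSidedIdeal A := J.comap φ
    have hJ' : ∀ a, a ∈ J' ↔ φ a ∈ J := fun a => TwoSidedIdeal.mem_comap φ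
    have h1 : ∀ N, eng x y N ∉ J' := by
      intro N h
      rw [hJ', eng_map] at h
      exact hcon2 N h
    have h2 : I ≤ J' := by
      intro a ha
      rw [hJ', (hker a).2 ha]
      exact J.zero_mem
    have h3 := hmax J' h1 h2
    obtain ⟨b, hb, hb0⟩ := exists_mem_ne hJ
    obtain ⟨a, rfl⟩ := hφ b
    have h4 : a ∈ J' := (hJ' a).2 hb
    rw [h3, ← hker] at h4
    exact hb0 h4
  -- the ring `Q` is not prime
  have hnp : ¬ PrimeR Q := by
    intro hP
    apply hne 1
    change X * Y - Y * X = 0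
    rw [prime_comm' hD hW hQ hP X Y, sub_self]
  unfold PrimeR at hnp
  push Not at hnp
  obtain ⟨a, b, hab, ha, hb⟩ := hnp
  have hspan_ne : ∀ c : Q, c ≠ 0 → TwoSidedIdeal.span ({c} : Set Q) ≠ ⊥ := fun c hc =>
    ne_bot_of_mem (TwoSidedIdeal.subset_span (Set.mem_singleton c)) hc
  obtain ⟨N1, h1⟩ := hev _ (hspan_ne a ha)
  obtain ⟨N2, h2⟩ := hev _ (hspan_ne b hb)
  have hstep : ∀ (J : TwoSidedIdeal Q) (N k : ℕ), eng X Y N ∈ J → eng X Y (N + k) ∈ J := by
    intro J N k h
    induction k with
    | zero => exact h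
    | succ k ih =>
      change eng X Y (N + k) * Y - Y * eng X Y (N + k) ∈ J
      exact J.sub_mem (J.mul_mem_right _ _ ih) (J.mul_mem_left _ _ ih)
  have h1' : eng X Y (N1 + N2) ∈ TwoSidedIdeal.span ({a} : Set Q) := hstep _ _ _ h1
  have h2' : eng X Y (N1 + N2) ∈ TwoSidedIdeal.span ({b} : Set Q) := by
    rw [add_comm]; exact hstep _ _ _ h2
  have h3 : ∀ r : Q, eng X Y (N1 + N2) * r * eng X Y (N1 + N2) = 0 :=
    span_ann hab _ h1' _ h2'
  obtain ⟨N, hN1, hN2⟩ : ∃ N, eng X Y N * eng X Y N = 0 ∧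
      ∀ r : Q, eng X Y N * r * eng X Y N = 0 := by
    set c := eng X Y (N1 + N2) with hc
    by_cases hcc : c * c = 0
    · exact ⟨N1 + N2, hcc, h3⟩
    · obtain ⟨N, hN⟩ := hev _ (hspan_ne _ hcc)
      have key : ∀ m ∈ TwoSidedIdeal.span ({c * c} : Set Q),
          ∀ n ∈ TwoSidedIdeal.span ({c * c} : Set Q), m * n = 0 := by
        intro m hm n hn
        refine span_mul_zero (G := {c * c}) ?_ ?_ hm hn
        · rintro b rfl d rfl
          calc c * c * (c * c) = c * (c * c) * c := by noncomm_ring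
            _ = 0 := h3 _
        · rintro b rfl d rfl r
          calc c * c * r * (c * c) = c * (c * r * c) * c := by noncomm_ring
            _ = 0 := h3 _
      exact ⟨N, key _ hN _ hN, fun r => key _ ((TwoSidedIdeal.span _).mul_mem_right _ _ hN) _ hN⟩
  have hB : Models E (sub2 (eng X Y N) Y) := hQ.subring _
  have hD2 : D2 (sub2 (eng X Y N) Y) := D2_of_sq (genBy_sub2 _ _) (Subtype.ext hN1)
    (fun r => Subtype.ext (hN2 r))
  have h4 := hD.2 _ hB hD2 (sx (eng X Y N) Y) (sy (eng X Y N) Y)
  have h5 := eng_map (NonUnitalSubringClass.subtype (sub2 (eng X Y N) Y)) (sx (eng X Y N) Y)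
    (sy (eng X Y N) Y) n
  rw [h4, map_zero] at h5
  apply hne (N + n)
  rw [eng_add]
  exact h5.symm

/-- a variety is Engel if its intersections with the varieties `WId p (p ^ k)` are Engel -/
theorem engel_of_W {E : Set (RTerm × RTerm)}
    (hW : ∀ p k : ℕ, p.Prime → 1 ≤ k → IsEngel (E ∪ WId p (p ^ k))) : IsEngel E := by
  obtain ⟨n, hD⟩ := exists_D2Engel hW
  exact isEngel_of_forall (fun A _ x y hA =>
    eng_of_all hD (fun p hp => hW p 1 hp le_rfl) hA x y)

/-- every minimal non-Engel variety lies in one of the varieties `WId p (p ^ k)` -/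
theorem sub_W {E : Set (RTerm × RTerm)} (hE : MinimalNonEngel E) :
    ∃ p k : ℕ, p.Prime ∧ 1 ≤ k ∧ SubvarietyOf E (WId p (p ^ k)) := by
  obtain ⟨hne, hmin⟩ := hE
  have h1 : ¬ ∀ p k : ℕ, p.Prime → 1 ≤ k → IsEngel (E ∪ WId p (p ^ k)) := fun h =>
    hne (engel_of_W h)
  push Not at h1
  obtain ⟨p, k, hp, hk, hnot⟩ := h1
  refine ⟨p, k, hp, hk, ?_⟩
  have hsub : SubvarietyOf (E ∪ WId p (p ^ k)) E := fun R _ hR e he => hR e (Or.inl he)
  have h2 : SubvarietyOf E (E ∪ WId p (p ^ k)) := by
    by_contra hcon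
    exact hnot (hmin _ hsub hcon)
  intro R _ hR e he
  exact h2 R hR e (Or.inr he)

theorem minimal_cross {E : Set (RTerm × RTerm)} (hE : MinimalNonEngel E) : IsCross E := by
  obtain ⟨p, k, hp, hk, hsub⟩ := sub_W hE
  have : Fact p.Prime := ⟨hp⟩
  exact cross_of_sub hk hsub

end Pool.Agent.R685
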